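import Mathlib
import Pool.Agent.H68.AH.Defs

/-!
# MP_103a5c_AH: toolkit for `Rare`
-/

open MeasureTheory Set Filter Topology
open scoped Real

namespace Pool.Agent.H67.AH

open Pool.Agent Pool.Agent.H68.AH

theorem Rare_fin (S : Set ℝ) (a b : ℝ) : volume (S ∩ Icc a b) ≠ ⊤ :=
  ne_top_of_le_ne_top (by rw [Real.volume_Icc]; exact ENNReal.ofReal_ne_top) (measure_mono inter_subset_right)

/-- Monotonicity in everything; the inclusion is only needed in the window and along the filter. -/
theorem Rare_mono {FF FF' : Filter ℝ} {α β α' β' p p' : ℝ} {S S' : ℝ → Set ℝ} (h : Rare FF α β p S) (hF : FF' ≤ FF)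
    (htop : FF' ≤ atTop) (hα : α ≤ α') (hβ : β' ≤ β) (hp : p ≤ p')
    (hS : ∀ᶠ T in FF', ∀ t ∈ Icc (α' * T) (β' * T), t ∈ S' T → t ∈ S T) : Rare FF' α' β' p' S' := by
  unfold Rare at *
  filter_upwards [hF h, hS, htop (eventually_gt_atTop 0)] with T h1 h2 h3
  have hsub : S' T ∩ Icc (α' * T) (β' * T) ⊆ S T ∩ Icc (α * T) (β * T) := by
    rintro t ⟨ht, ht'⟩
    refine ⟨h2 t ht' ht, ?_, ?_⟩
    · exact (mul_le_mul_of_nonneg_right hα h3.le).trans ht'.1
    · exact ht'.2.trans (mul_le_mul_of_nonneg_right hβ h3.le)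
  calc volume.real (S' T ∩ Icc (α' * T) (β' * T)) ≤ volume.real (S T ∩ Icc (α * T) (β * T)) :=
        measureReal_mono hsub (Rare_fin _ _ _)
    _ ≤ p * T := h1
    _ ≤ p' * T := mul_le_mul_of_nonneg_right hp h3.le

theorem Rare_union {FF : Filter ℝ} {α β p q : ℝ} {S S' : ℝ → Set ℝ} (h : Rare FF α β p S) (h' : Rare FF α β q S') :
    Rare FF α β (p + q) (fun T => S T ∪ S' T) := by
  unfold Rare at *
  filter_upwards [h, h'] with T h1 h2
  rw [union_inter_distrib_right]
  calc volume.real (S T ∩ Icc (α * T) (β * T) ∪ S' T ∩ Icc (α * T) (β * T))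
      ≤ volume.real (S T ∩ Icc (α * T) (β * T)) + volume.real (S' T ∩ Icc (α * T) (β * T)) := measureReal_union_le _ _
    _ ≤ (p + q) * T := by linarith

theorem Rare_empty {FF : Filter ℝ} {α β : ℝ} : Rare FF α β 0 (fun _ => ∅) := by
  unfold Rare
  filter_upwards with T
  simp

theorem Rare_biUnion {ι : Type*} {FF : Filter ℝ} {α β : ℝ} (s : Finset ι) {p : ι → ℝ} {S : ι → ℝ → Set ℝ}
    (h : ∀ i ∈ s, Rare FF α β (p i) (S i)) : Rare FF α β (∑ i ∈ s, p i) (fun T => {t | ∃ i ∈ s, t ∈ S i T}) := by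
  classical
  induction s using Finset.induction_on with
  | empty =>
      have h0 := @Rare_empty FF α β
      simpa using h0
  | insert a s ha ih =>
      rw [Finset.sum_insert ha]
      have h1 := Rare_union (h a (Finset.mem_insert_self a s)) (ih fun i hi => h i (Finset.mem_insert_of_mem hi))
      have h2 : (fun T => S a T ∪ {t | ∃ i ∈ s, t ∈ S i T}) = fun T => {t | ∃ i ∈ insert a s, t ∈ S i T} := by
        funext T
        apply Set.ext
        intro t
        constructor
        · rintro (h3 | ⟨i, hi, h3⟩)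
          · exact ⟨a, Finset.mem_insert_self a s, h3⟩
          · exact ⟨i, Finset.mem_insert_of_mem hi, h3⟩
        · rintro ⟨i, hi, h3⟩
          rcases Finset.mem_insert.1 hi with rfl | hi
          · exact Or.inl h3
          · exact Or.inr ⟨i, hi, h3⟩
      rwa [h2] at h1

/-- A shift by a fixed multiple of `1 / log T`. -/
theorem Rare_shift {FF : Filter ℝ} {α β α' β' p : ℝ} {S : ℝ → Set ℝ} (h : Rare FF α' β' p S) (htop : FF ≤ atTop)
    (hα : α' < α) (hβ : β < β') (s : ℝ) : Rare FF α β p (fun T => {t | t + s / Real.log T ∈ S T}) := by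
  unfold Rare at *
  have hlim : Tendsto (fun T : ℝ => s / Real.log T / T) atTop (𝓝 0) := by
    have h1 : Tendsto (fun T : ℝ => s / Real.log T) atTop (𝓝 0) := tendsto_const_nhds.div_atTop Real.tendsto_log_atTop
    exact h1.div_atTop tendsto_id
  have hc : 0 < min (α - α') (β' - β) := lt_min (by linarith) (by linarith)
  have hsmall : ∀ᶠ T in FF, |s / Real.log T / T| < min (α - α') (β' - β) := by
    have := (Metric.tendsto_nhds.1 hlim) _ hc
    refine htop ?_
    filter_upwards [this] with T hT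
    rwa [Real.dist_eq, sub_zero] at hT
  filter_upwards [h, hsmall, htop (eventually_gt_atTop 0)] with T h1 h2 h3
  have h4 : |s / Real.log T| < min (α - α') (β' - β) * T := by
    rw [abs_div, abs_of_pos h3, div_lt_iff₀ h3] at h2
    exact h2
  have h5 : |s / Real.log T| < (α - α') * T := h4.trans_le (mul_le_mul_of_nonneg_right (min_le_left _ _) h3.le)
  have h6 : |s / Real.log T| < (β' - β) * T := h4.trans_le (mul_le_mul_of_nonneg_right (min_le_right _ _) h3.le)
  have hsub : {t | t + s / Real.log T ∈ S T} ∩ Icc (α * T) (β * T) ⊆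
      (fun t => t + s / Real.log T) ⁻¹' (S T ∩ Icc (α' * T) (β' * T)) := by
    rintro t ⟨ht, ht'⟩
    refine ⟨ht, ?_, ?_⟩
    · have := neg_abs_le (s / Real.log T)
      have := ht'.1
      show α' * T ≤ t + s / Real.log T
      nlinarith
    · have := le_abs_self (s / Real.log T)
      have := ht'.2
      show t + s / Real.log T ≤ β' * T
      nlinarith
  have hpre : volume ((fun t => t + s / Real.log T) ⁻¹' (S T ∩ Icc (α' * T) (β' * T)))
      = volume (S T ∩ Icc (α' * T) (β' * T)) := measure_preimage_add_right _ _ _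
  calc volume.real ({t | t + s / Real.log T ∈ S T} ∩ Icc (α * T) (β * T))
      ≤ volume.real ((fun t => t + s / Real.log T) ⁻¹' (S T ∩ Icc (α' * T) (β' * T))) := by
        refine measureReal_mono hsub ?_
        rw [hpre]
        exact Rare_fin _ _ _
    _ = volume.real (S T ∩ Icc (α' * T) (β' * T)) := by
        unfold Measure.real
        rw [hpre]
    _ ≤ p * T := h1

/-- Chebyshev for outer measure: if `c ≤ f` on the bad set and `f ≥ 0`. -/
theorem Rare_cheb {S : Set ℝ} {a b c I : ℝ} {f : ℝ → ℝ} (hc : 0 < c) (hf0 : ∀ t, 0 ≤ f t)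
    (hfc : Continuous f) (hS : ∀ t ∈ Icc a b, t ∈ S → c ≤ f t) (hI : ∫ t in Icc a b, f t ≤ I) :
    volume.real (S ∩ Icc a b) ≤ I / c := by
  have hint : IntegrableOn f (Icc a b) := hfc.continuousOn.integrableOn_Icc
  have hsub : S ∩ Icc a b ⊆ {t | c ≤ f t} ∩ Icc a b := fun t ht => ⟨hS t ht.2 ht.1, ht.2⟩
  have h1 : volume.real ({t | c ≤ f t} ∩ Icc a b) = (volume.restrict (Icc a b)).real {t | c ≤ f t} := by
    rw [measureReal_restrict_apply (isClosed_le continuous_const hfc).measurableSet]
  have h2 := mul_meas_ge_le_integral_of_nonneg (μ := volume.restrict (Icc a b)) (f := f)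
    (Eventually.of_forall hf0) hint c
  have h3 : volume.real (S ∩ Icc a b) ≤ (volume.restrict (Icc a b)).real {t | c ≤ f t} := by
    rw [← h1]
    exact measureReal_mono hsub (Rare_fin _ _ _)
  rw [le_div_iff₀ hc]
  nlinarith

end Pool.Agent.H67.AH
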