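import Mathlib
import Pool.Agent.H67.AH.Rare
import Pool.Agent.H14.GP.Va
import Pool.Agent.H14.GP.Vb

/-!
# MP_103a5c_AH: from mean values to `Rare`
-/

open MeasureTheory Set Filter Topology
open scoped Real ContDiff

namespace Pool.Agent.H67.AH

open Pool.Agent Pool.Agent.H6 Pool.Agent.H14.GP Pool.Agent.H68.AH

/-- A weight which is `1` on `[α, β] ⊆ (0, 1)`, supported in `(0, 1)`. -/
theorem Mean_wgt {α β : ℝ} (hα : 0 < α) (hαβ : α < β) (hβ : β < 1) : ∃ v : ℝ → ℝ, Wgt v ∧ (∀ x ∈ Icc α β, v x = 1) ∧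
    (∀ x, v x ≤ 1) ∧ (∀ x, x ∉ Icc (α / 2) ((1 + β) / 2) → v x = 0) ∧ ∫ x, v x ≤ 1 := by
  have hm : 0 < min α (1 - β) := lt_min hα (by linarith)
  let b : ContDiffBump ((α + β) / 2) := ⟨(β - α) / 2, (β - α) / 2 + min α (1 - β) / 2, by linarith, by linarith⟩
  have h1 : ∀ x ∈ Icc α β, b x = 1 := by
    intro x hx
    apply b.one_of_mem_closedBall
    rw [Metric.mem_closedBall, Real.dist_eq, abs_le]
    show -((β - α) / 2) ≤ x - (α + β) / 2 ∧ x - (α + β) / 2 ≤ (β - α) / 2
    constructor <;> linarith [hx.1, hx.2]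
  have h0 : ∀ x, x ∉ Icc (α / 2) ((1 + β) / 2) → b x = 0 := by
    intro x hx
    apply b.zero_of_le_dist
    rw [Real.dist_eq]
    show (β - α) / 2 + min α (1 - β) / 2 ≤ |x - (α + β) / 2|
    have h2 := min_le_left α (1 - β)
    have h3 := min_le_right α (1 - β)
    by_cases hx1 : x < α / 2
    · rw [abs_of_neg (by linarith)]
      linarith
    · have : (1 + β) / 2 < x := by
        by_contra h4
        exact hx ⟨not_lt.1 hx1, not_lt.1 h4⟩
      rw [abs_of_pos (by linarith)]
      linarith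
  refine ⟨b, ⟨b.contDiff, ⟨α / 2, (1 + β) / 2, by linarith, by linarith, h0⟩, fun x => b.nonneg⟩, h1, fun x => b.le_one,
    h0, ?_⟩
  have hint : ∫ x, b x ≤ ∫ x in Icc (0 : ℝ) 1, (1 : ℝ) := by
    rw [← integral_indicator measurableSet_Icc]
    apply integral_mono
    · exact b.contDiff (n := 0) |>.continuous.integrable_of_hasCompactSupport b.hasCompactSupport
    · exact (integrable_indicator_iff measurableSet_Icc).2 (integrableOn_const (by simp))
    · intro x
      by_cases hx : x ∈ Icc (0 : ℝ) 1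
      · rw [indicator_of_mem hx]
        exact b.le_one
      · rw [indicator_of_notMem hx, h0 x fun h => hx ⟨by linarith [h.1], by linarith [h.2]⟩]
  refine hint.trans ?_
  simp

theorem Mean_rare {FF : Filter ℝ} (htop : FF ≤ atTop) {v : ℝ → ℝ} (hv : Wgt v) {α β : ℝ}
    (h1 : ∀ x ∈ Icc α β, 1 ≤ v x) {c I : ℝ} (hc : 0 < c) {f : ℝ → ℝ → ℝ} (hf0 : ∀ T t, 0 ≤ f T t)
    (hfc : ∀ T, Continuous (f T)) (hI : ∀ᶠ T in FF, EE v T (f T) ≤ I) :
    Rare FF α β (I / c) (fun T => {t | c ≤ f T t}) := by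
  unfold Rare
  filter_upwards [hI, htop (eventually_gt_atTop 0)] with T hT hT0
  have hvint : Integrable (fun t => v (t / T) * f T t) := by
    obtain ⟨a, b, ha, hab, hsupp⟩ := hv.supp
    apply Continuous.integrable_of_hasCompactSupport
    · exact (hv.smooth.continuous.comp (continuous_id.div_const T)).mul (hfc T)
    · refine HasCompactSupport.intro (isCompact_Icc (a := a * T) (b := b * T)) fun t ht => ?_
      rw [hsupp (t / T), zero_mul]
      intro h2
      exact ht ⟨(le_div_iff₀ hT0).1 h2.1, (div_le_iff₀ hT0).1 h2.2⟩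
  have h2 : ∫ t in Icc (α * T) (β * T), f T t ≤ T * I := by
    calc ∫ t in Icc (α * T) (β * T), f T t ≤ ∫ t in Icc (α * T) (β * T), v (t / T) * f T t := by
          apply setIntegral_mono_on (hfc T).continuousOn.integrableOn_Icc hvint.integrableOn measurableSet_Icc
          intro t ht
          have h3 : 1 ≤ v (t / T) := h1 _ ⟨(le_div_iff₀ hT0).2 ht.1, (div_le_iff₀ hT0).2 ht.2⟩
          nlinarith [hf0 T t]
      _ ≤ ∫ t, v (t / T) * f T t := setIntegral_le_integral hvint
          (Eventually.of_forall fun t => mul_nonneg (hv.nonneg _) (hf0 T t))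
      _ = T * EE v T (f T) := by
          unfold EE
          field_simp
      _ ≤ T * I := mul_le_mul_of_nonneg_left hT hT0.le
  have h3 := Rare_cheb (S := {t | c ≤ f T t}) (a := α * T) (b := β * T) hc (hf0 T) (hfc T) (fun t _ ht => ht) h2
  calc volume.real ({t | c ≤ f T t} ∩ Icc (α * T) (β * T)) ≤ T * I / c := h3
    _ = I / c * T := by ring

theorem EE_sum {ι : Type*} {v : ℝ → ℝ} (hv : Wgt v) {T : ℝ} (hT : 0 < T) (s : Finset ι) (c : ι → ℝ) (f : ι → ℝ → ℝ)
    (hf : ∀ i ∈ s, Continuous (f i)) : EE v T (fun t => ∑ i ∈ s, c i * f i t) = ∑ i ∈ s, c i * EE v T (f i) := by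
  have h := Vb_EC_sum hv hT s (fun i => (c i : ℂ)) (fun i t => (f i t : ℂ))
    (fun i hi => Complex.continuous_ofReal.comp (hf i hi))
  have e : (fun t => ∑ i ∈ s, (c i : ℂ) * (f i t : ℂ)) = fun t => ((∑ i ∈ s, c i * f i t : ℝ) : ℂ) := by
    funext t
    push_cast
    rfl
  rw [e, EC_ofReal] at h
  simp only [EC_ofReal] at h
  exact_mod_cast h

end Pool.Agent.H67.AH
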