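import Mathlib
import Pool.Agent.H24.AH.We
import Pool.Agent.H14.GP.Va
import Pool.Agent.H14.GP.Vb

/-!
# MP_103a5c_AH: Gaussian limits of the joint moments of the real parts of two short prime sums with disjoint supports
-/

open MeasureTheory Set Filter Topology
open scoped Real ContDiff ComplexConjugate

namespace Pool.Agent.H67.AH

open Pool.Agent Pool.Agent.H6 Pool.Agent.H14.GP Pool.Agent.H24.HF Pool.Agent.H24.AH

theorem Ga_permK {K : ℝ → ℂ} {cK : ℂ} (hK : ipc K K = cK) {G : ℕ → ℝ → ℂ} {S : Finset ℕ}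
    (hS : ∀ i ∈ S, ipc K (G i) = 0) (b : ℕ) :
    ∀ S' : Finset ℕ, Disjoint S S' → (∀ i ∈ S', G i = K) → permC G (List.replicate b K) (S ∪ S')
      = if S.card = 0 ∧ S'.card = b then (b.factorial : ℂ) * cK ^ b else 0 := by
  classical
  induction b with
  | zero =>
      intro S' hd hS'
      rw [List.replicate_zero, permC]
      by_cases h : S ∪ S' = ∅
      · have h' := Finset.union_eq_empty.1 h
        rw [if_pos h, if_pos ⟨by rw [h'.1, Finset.card_empty], by rw [h'.2, Finset.card_empty]⟩]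
        simp
      · rw [if_neg h, if_neg]
        rintro ⟨h1, h2⟩
        apply h
        rw [Finset.card_eq_zero.1 h1, Finset.card_eq_zero.1 h2, Finset.union_empty]
  | succ b ih =>
      intro S' hd hS'
      rw [List.replicate_succ, permC, Finset.sum_union hd]
      have h1 : ∑ i ∈ S, ipc K (G i) * permC G (List.replicate b K) ((S ∪ S').erase i) = 0 :=
        Finset.sum_eq_zero fun i hi => by rw [hS i hi, zero_mul]
      have h2 : ∀ i ∈ S', ipc K (G i) * permC G (List.replicate b K) ((S ∪ S').erase i)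
          = if S.card = 0 ∧ S'.card = b + 1 then cK * ((b.factorial : ℂ) * cK ^ b) else 0 := by
        intro i hi
        have hi' : i ∉ S := fun h => Finset.disjoint_left.1 hd h hi
        have he : (S ∪ S').erase i = S ∪ S'.erase i := by
          rw [Finset.erase_union_distrib, Finset.erase_eq_of_notMem hi']
        rw [he, hS' i hi, hK, ih (S'.erase i) (hd.mono_right (Finset.erase_subset _ _))
          fun j hj => hS' j (Finset.mem_of_mem_erase hj), Finset.card_erase_of_mem hi]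
        have hpos : 0 < S'.card := Finset.card_pos.2 ⟨i, hi⟩
        by_cases h : S.card = 0 ∧ S'.card = b + 1
        · rw [if_pos h, if_pos ⟨h.1, by omega⟩]
        · rw [if_neg h, if_neg (by rintro ⟨h3, h4⟩; exact h ⟨h3, by omega⟩), mul_zero]
      rw [h1, zero_add, Finset.sum_congr rfl h2, Finset.sum_const, nsmul_eq_mul]
      by_cases h : S.card = 0 ∧ S'.card = b + 1
      · rw [if_pos h, if_pos h, h.2, Nat.factorial_succ, pow_succ]
        push_cast
        ring
      · rw [if_neg h, if_neg h, mul_zero]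

theorem Ga_perm {H K : ℝ → ℂ} {cH cK : ℂ} (hH : ipc H H = cH) (hK : ipc K K = cK) (hHK : ipc H K = 0)
    (hKH : ipc K H = 0) {G : ℕ → ℝ → ℂ} {S' : Finset ℕ} (hS' : ∀ i ∈ S', G i = K) (a b : ℕ) :
    ∀ S : Finset ℕ, Disjoint S S' → (∀ i ∈ S, G i = H) →
      permC G (List.replicate a H ++ List.replicate b K) (S ∪ S')
      = if S.card = a ∧ S'.card = b then (a.factorial : ℂ) * cH ^ a * ((b.factorial : ℂ) * cK ^ b) else 0 := by
  classical
  induction a with
  | zero =>
      intro S hd hS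
      rw [List.replicate_zero, List.nil_append, Ga_permK hK (fun i hi => by rw [hS i hi, hKH]) b S' hd hS']
      by_cases h : S.card = 0 ∧ S'.card = b
      · rw [if_pos h, if_pos h]; simp
      · rw [if_neg h, if_neg h]
  | succ a ih =>
      intro S hd hS
      rw [List.replicate_succ, List.cons_append, permC, Finset.sum_union hd]
      have h1 : ∑ i ∈ S', ipc H (G i) * permC G (List.replicate a H ++ List.replicate b K) ((S ∪ S').erase i) = 0 :=
        Finset.sum_eq_zero fun i hi => by rw [hS' i hi, hHK, zero_mul]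
      have h2 : ∀ i ∈ S, ipc H (G i) * permC G (List.replicate a H ++ List.replicate b K) ((S ∪ S').erase i)
          = if S.card = a + 1 ∧ S'.card = b then cH * ((a.factorial : ℂ) * cH ^ a * ((b.factorial : ℂ) * cK ^ b)) else 0 := by
        intro i hi
        have hi' : i ∉ S' := fun h => Finset.disjoint_left.1 hd hi h
        have he : (S ∪ S').erase i = S.erase i ∪ S' := by
          rw [Finset.erase_union_distrib, Finset.erase_eq_of_notMem hi']
        rw [he, hS i hi, hH, ih (S.erase i) (hd.mono_left (Finset.erase_subset _ _))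
          fun j hj => hS j (Finset.mem_of_mem_erase hj), Finset.card_erase_of_mem hi]
        have hpos : 0 < S.card := Finset.card_pos.2 ⟨i, hi⟩
        by_cases h : S.card = a + 1 ∧ S'.card = b
        · rw [if_pos h, if_pos ⟨by omega, h.2⟩]
        · rw [if_neg h, if_neg (by rintro ⟨h3, h4⟩; exact h ⟨by omega, h4⟩), mul_zero]
      rw [h1, add_zero, Finset.sum_congr rfl h2, Finset.sum_const, nsmul_eq_mul]
      by_cases h : S.card = a + 1 ∧ S'.card = b
      · rw [if_pos h, if_pos h, h.1, Nat.factorial_succ, pow_succ]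
        push_cast
        ring
      · rw [if_neg h, if_neg h, mul_zero]

theorem Ga_BB (H : ℝ → ℝ) (T t : ℝ) : BB (fun x => (H x : ℂ)) 1 T t = ev t (bb H T) := by
  rw [BB_ofReal]
  unfold bbW
  congr 2
  · funext x; rw [one_mul]
  · exact Real.rpow_one T

/-- the limit of the mean of a monomial -/
theorem Ga_mono {v : ℝ → ℝ} (hv : Wgt v) {H K : ℝ → ℝ} {ℓ : ℝ} (hℓ0 : 0 ≤ ℓ) (hH : Sh ℓ (fun x => (H x : ℂ)))
    (hK : Sh ℓ (fun x => (K x : ℂ))) (hHK : ∫ x in Ioi (0 : ℝ), H x * K x / x = 0)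
    (a1 b1 a2 b2 : ℕ) (hℓ : ((a2 : ℝ) + b2) * ℓ < 1) :
    Tendsto (fun T => EC v T (fun t => (ev t (bb H T) ^ a1 * ev t (bb K T) ^ b1) *
      conj (ev t (bb H T) ^ a2 * ev t (bb K T) ^ b2))) atTop
      (𝓝 (((∫ x, v x : ℝ) : ℂ) * (if a2 = a1 ∧ b2 = b1 then
        (a1.factorial : ℂ) * ((∫ x in Ioi (0 : ℝ), H x * H x / x : ℝ) : ℂ) ^ a1 *
          ((b1.factorial : ℂ) * ((∫ x in Ioi (0 : ℝ), K x * K x / x : ℝ) : ℂ) ^ b1) else 0))) := by
  classical
  have hbd : ∀ {F : ℝ → ℂ}, Sh ℓ F → ∃ B : ℝ, ∀ x, ‖F x‖ ≤ B := by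
    intro F hF
    obtain ⟨B, hB⟩ := (isCompact_Icc (a := (0 : ℝ)) (b := ℓ)).exists_bound_of_continuousOn hF.cont.continuousOn
    refine ⟨max B 0, fun x => ?_⟩
    by_cases hx : x ∈ Icc (0 : ℝ) ℓ
    · exact (hB x hx).trans (le_max_left _ _)
    · have : F x = 0 := by
        rcases lt_or_ge x 0 with h | h
        · obtain ⟨a, ha, ha'⟩ := hF.low
          exact ha' x (by linarith)
        · apply hF.high x
          by_contra h2
          exact hx ⟨h, (not_le.1 h2).le⟩
      rw [this, norm_zero]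
      exact le_max_right _ _
  set Hc : ℝ → ℂ := fun x => (H x : ℂ) with hHc
  set Kc : ℝ → ℂ := fun x => (K x : ℂ) with hKc
  have hlist : ∀ F ∈ List.replicate a1 Hc ++ List.replicate b1 Kc, Continuous F ∧ ∃ B : ℝ, ∀ x, ‖F x‖ ≤ B := by
    intro F hF
    rcases List.mem_append.1 hF with h | h
    · rw [List.eq_of_mem_replicate h]; exact ⟨hH.cont, hbd hH⟩
    · rw [List.eq_of_mem_replicate h]; exact ⟨hK.cont, hbd hK⟩
  let G : ℕ → ℝ → ℂ := fun i => if i < a2 then Hc else Kc
  have hsumℓ : ∑ i ∈ Finset.range (a2 + b2), (fun _ => ℓ : ℕ → ℝ) i < 1 := by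
    rw [Finset.sum_const, Finset.card_range, nsmul_eq_mul]
    push_cast
    exact hℓ
  have hW := wick hv (le_refl (1 : ℝ)) hlist (S := Finset.range (a2 + b2)) (ℓ := fun _ => ℓ) (fun _ _ => hℓ0) hsumℓ
    (G := G) (fun i _ => by
      by_cases h : i < a2
      · simp only [G, if_pos h]; exact hH
      · simp only [G, if_neg h]; exact hK)
  unfold Wk at hW
  let S : Finset ℕ := Finset.range a2
  let S' : Finset ℕ := (Finset.range b2).map (addLeftEmbedding a2)
  have hunion : Finset.range (a2 + b2) = S ∪ S' := by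
    ext i
    simp only [S, S', Finset.mem_union, Finset.mem_range, Finset.mem_map, addLeftEmbedding_apply]
    constructor
    · intro h
      by_cases h2 : i < a2
      · exact Or.inl h2
      · exact Or.inr ⟨i - a2, by omega, by omega⟩
    · rintro (h | ⟨j, hj, rfl⟩) <;> omega
  have hdisj : Disjoint S S' := by
    rw [Finset.disjoint_left]
    intro i hi hi'
    simp only [S, S', Finset.mem_range, Finset.mem_map, addLeftEmbedding_apply] at hi hi'
    obtain ⟨j, hj, rfl⟩ := hi'
    omega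
  have hGS : ∀ i ∈ S, G i = Hc := fun i hi => if_pos (Finset.mem_range.1 hi)
  have hGS' : ∀ i ∈ S', G i = Kc := by
    intro i hi
    simp only [S', Finset.mem_map, addLeftEmbedding_apply] at hi
    obtain ⟨j, _, rfl⟩ := hi
    exact if_neg (by omega)
  have hKH : ∫ x in Ioi (0 : ℝ), K x * H x / x = 0 := by
    have e : (fun x : ℝ => K x * H x / x) = fun x => H x * K x / x := funext fun x => by ring
    rw [e]
    exact hHK
  have hp := Ga_perm (H := Hc) (K := Kc) (ipc_real H H) (ipc_real K K) (by rw [ipc_real, hKH]; simp)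
    (by rw [ipc_real, hHK]; simp) (G := G) (S' := S') hGS' a1 b1 S hdisj hGS
  rw [hunion, hp] at hW
  have hcard : S.card = a2 := Finset.card_range _
  have hcard' : S'.card = b2 := by rw [Finset.card_map, Finset.card_range]
  rw [hcard, hcard'] at hW
  refine hW.congr fun T => ?_
  congr 1
  funext t
  rw [List.map_append, List.map_replicate, List.map_replicate, List.prod_append, List.prod_replicate,
    List.prod_replicate, Ga_BB, Ga_BB, Finset.prod_union hdisj, Finset.prod_congr rfl (g := fun _ => ev t (bb H T))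
      (fun i hi => by rw [hGS i hi, Ga_BB]), Finset.prod_congr rfl (s₁ := S') (g := fun _ => ev t (bb K T))
      (fun i hi => by rw [hGS' i hi, Ga_BB]), Finset.prod_const, Finset.prod_const, hcard, hcard']

/-- Gaussian moments: limit of the mean of `(Re A)^a` if `∫ H² dx/x = c` -/
noncomputable def gm (c : ℝ) (a : ℕ) : ℝ :=
  ∑ k ∈ Finset.range (a + 1), (a.choose k : ℝ) / 2 ^ a * (if a - k = k then (k.factorial : ℝ) * c ^ k else 0)

theorem Ga_re (z : ℂ) (a : ℕ) : ((z.re ^ a : ℝ) : ℂ) = ∑ k ∈ Finset.range (a + 1),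
    ((a.choose k : ℂ) / 2 ^ a) * (z ^ k * conj (z ^ (a - k))) := by
  have h : (z.re : ℂ) = (z + conj z) / 2 := by
    rw [Complex.add_conj]
    push_cast
    ring
  rw [Complex.ofReal_pow, h, div_pow, add_pow, Finset.sum_div]
  refine Finset.sum_congr rfl fun k _ => ?_
  rw [map_pow]
  ring

theorem Ga_cont (H : ℝ → ℝ) (T : ℝ) : Continuous (fun t => ev t (bb H T)) := by
  have h := continuous_BB (fun x => (H x : ℂ)) 1 T
  have e : (fun t => BB (fun x => (H x : ℂ)) 1 T t) = fun t => ev t (bb H T) := funext fun t => Ga_BB H T t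
  rwa [e] at h

theorem Ga_two {v : ℝ → ℝ} (hv : Wgt v) {H K : ℝ → ℝ} {ℓ : ℝ} (hℓ0 : 0 ≤ ℓ) (hH : Sh ℓ (fun x => (H x : ℂ)))
    (hK : Sh ℓ (fun x => (K x : ℂ))) (hHK : ∫ x in Ioi (0 : ℝ), H x * K x / x = 0)
    (a b : ℕ) (hℓ : ((a : ℝ) + b) * ℓ < 1) :
    Tendsto (fun T => EE v T (fun t => (ev t (bb H T)).re ^ a * (ev t (bb K T)).re ^ b)) atTop
      (𝓝 ((∫ x, v x) * (gm (∫ x in Ioi (0 : ℝ), H x * H x / x) a * gm (∫ x in Ioi (0 : ℝ), K x * K x / x) b))) := by
  classical
  set cH : ℝ := ∫ x in Ioi (0 : ℝ), H x * H x / x with hcH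
  set cK : ℝ := ∫ x in Ioi (0 : ℝ), K x * K x / x with hcK
  have key : Tendsto (fun T => EC v T (fun t => (((ev t (bb H T)).re ^ a * (ev t (bb K T)).re ^ b : ℝ) : ℂ))) atTop
      (𝓝 (((∫ x, v x) * (gm cH a * gm cK b) : ℝ) : ℂ)) := by
    have hexp : ∀ T t, (((ev t (bb H T)).re ^ a * (ev t (bb K T)).re ^ b : ℝ) : ℂ) =
        ∑ q ∈ Finset.range (a + 1) ×ˢ Finset.range (b + 1),
          (((a.choose q.1 : ℂ) / 2 ^ a) * ((b.choose q.2 : ℂ) / 2 ^ b)) *
          ((ev t (bb H T) ^ q.1 * ev t (bb K T) ^ q.2) *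
            conj (ev t (bb H T) ^ (a - q.1) * ev t (bb K T) ^ (b - q.2))) := by
      intro T t
      rw [Complex.ofReal_mul, Ga_re, Ga_re, Finset.sum_mul_sum, ← Finset.sum_product']
      refine Finset.sum_congr rfl fun q _ => ?_
      rw [map_mul]
      ring
    have hlim : ∀ q ∈ Finset.range (a + 1) ×ˢ Finset.range (b + 1), Tendsto (fun T => (((a.choose q.1 : ℂ) / 2 ^ a) *
        ((b.choose q.2 : ℂ) / 2 ^ b)) * EC v T (fun t => (ev t (bb H T) ^ q.1 * ev t (bb K T) ^ q.2) *
            conj (ev t (bb H T) ^ (a - q.1) * ev t (bb K T) ^ (b - q.2)))) atTop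
        (𝓝 ((((a.choose q.1 : ℂ) / 2 ^ a) * ((b.choose q.2 : ℂ) / 2 ^ b)) * (((∫ x, v x : ℝ) : ℂ) *
          (if a - q.1 = q.1 ∧ b - q.2 = q.2 then
        (q.1.factorial : ℂ) * (cH : ℂ) ^ q.1 * ((q.2.factorial : ℂ) * (cK : ℂ) ^ q.2) else 0)))) := by
      intro q hq
      refine (Ga_mono hv hℓ0 hH hK hHK q.1 q.2 (a - q.1) (b - q.2) ?_).const_mul _
      have h1 : ((a - q.1 : ℕ) : ℝ) ≤ a := by exact_mod_cast Nat.sub_le a q.1
      have h2 : ((b - q.2 : ℕ) : ℝ) ≤ b := by exact_mod_cast Nat.sub_le b q.2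
      nlinarith
    have hsum := tendsto_finsetSum _ hlim
    have hval : ∑ q ∈ Finset.range (a + 1) ×ˢ Finset.range (b + 1),
        (((a.choose q.1 : ℂ) / 2 ^ a) * ((b.choose q.2 : ℂ) / 2 ^ b)) * (((∫ x, v x : ℝ) : ℂ) *
          (if a - q.1 = q.1 ∧ b - q.2 = q.2 then
        (q.1.factorial : ℂ) * (cH : ℂ) ^ q.1 * ((q.2.factorial : ℂ) * (cK : ℂ) ^ q.2) else 0))
        = (((∫ x, v x) * (gm cH a * gm cK b) : ℝ) : ℂ) := by
      unfold gm
      rw [Finset.sum_mul_sum, ← Finset.sum_product']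
      push_cast
      rw [Finset.mul_sum]
      refine Finset.sum_congr rfl fun q _ => ?_
      by_cases h1 : a - q.1 = q.1
      · by_cases h2 : b - q.2 = q.2
        · rw [if_pos ⟨h1, h2⟩, if_pos h1, if_pos h2]; push_cast; ring
        · rw [if_neg (fun h => h2 h.2), if_neg h2]; push_cast; ring
      · rw [if_neg (fun h => h1 h.1), if_neg h1]; push_cast; ring
    rw [hval] at hsum
    refine hsum.congr' ?_
    filter_upwards [eventually_gt_atTop 0] with T hT
    rw [← Vb_EC_sum hv hT]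
    · congr 1
      funext t
      rw [hexp]
    · intro q _
      have c1 := Ga_cont H T
      have c2 := Ga_cont K T
      exact ((c1.pow _).mul (c2.pow _)).mul (Complex.continuous_conj.comp ((c1.pow _).mul (c2.pow _)))
  have h2 : Tendsto (fun T => ((EE v T (fun t => (ev t (bb H T)).re ^ a * (ev t (bb K T)).re ^ b) : ℝ) : ℂ)) atTop
      (𝓝 (((∫ x, v x) * (gm cH a * gm cK b) : ℝ) : ℂ)) := by
    refine key.congr fun T => ?_
    rw [EC_ofReal]
  have h3 := (Complex.continuous_re.tendsto _).comp h2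
  exact h3

end Pool.Agent.H67.AH
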