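import Mathlib
import Pool.Agent.H68.AH.Defs
import Pool.Agent.H24.AH.Wc

/-!
# MP_103a5c_AH: the low band field
-/

open MeasureTheory Set Filter Topology
open scoped Real ContDiff ComplexConjugate

namespace Pool.Agent.H67.AH

open Pool.Agent Pool.Agent.H14.GP Pool.Agent.H24.HF Pool.Agent.H24.AH Pool.Agent.H67.HF Pool.Agent.H68.AH

/-- the test function of the low band field -/
noncomputable def Hs (M : ℕ) (θ : ℝ) (G : ℕ → ℝ → ℝ) (x : ℝ) : ℝ :=
  ∑ j ∈ Finset.range (JJ M + 1), hG (yy M) (cG θ G) j x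

theorem Low_bb_add (F G : ℝ → ℝ) (T : ℝ) : bb (fun x => F x + G x) T = bb F T + bb G T := by
  unfold bb
  rw [← Finset.sum_add_distrib]
  refine Finset.sum_congr rfl fun p _ => ?_
  rw [← MonoidAlgebra.single_add, add_mul]

theorem Low_bb_zero (T : ℝ) : bb (fun _ => 0) T = 0 := by
  unfold bb
  refine Finset.sum_eq_zero fun p _ => ?_
  rw [zero_mul, MonoidAlgebra.single_zero]

theorem Low_bb_sum {ι : Type*} (s : Finset ι) (F : ι → ℝ → ℝ) (T : ℝ) :
    bb (fun x => ∑ i ∈ s, F i x) T = ∑ i ∈ s, bb (F i) T := by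
  classical
  induction s using Finset.induction_on with
  | empty =>
      simp only [Finset.sum_empty]
      exact Low_bb_zero T
  | insert a s ha ih =>
      simp only [Finset.sum_insert ha]
      rw [Low_bb_add, ih]

theorem Low_XX (M : ℕ) (θ : ℝ) (G : ℕ → ℝ → ℝ) (T t : ℝ) : XX M (cG θ G) T t = (ev t (bb (Hs M θ G) T)).re := by
  unfold XX
  have : Hs M θ G = fun x => ∑ j ∈ Finset.range (JJ M + 1), hG (yy M) (cG θ G) j x := rfl
  rw [this, Low_bb_sum, map_sum]

theorem Low_cont {M : ℕ} {G : ℕ → ℝ → ℝ} (hC : Cell0 M G) (θ : ℝ) : Continuous (Hs M θ G) := by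
  have e : Hs M θ G = fun x => ∑ j ∈ Finset.range (JJ M + 1), hG (yy M) (cG θ G) j x := rfl
  rw [e]
  refine continuous_finsetSum _ fun j _ => ?_
  unfold hG cG
  exact ((hC.smooth j).continuous.comp (continuous_id.div_const θ)).mul (by fun_prop)

theorem Low_nonneg {M : ℕ} {G : ℕ → ℝ → ℝ} (hC : Cell0 M G) (θ x : ℝ) : 0 ≤ Hs M θ G x := by
  unfold Hs
  refine Finset.sum_nonneg fun j _ => ?_
  unfold hG cG
  exact mul_nonneg (hC.nonneg _ _) (Real.exp_pos _).le

theorem Low_low {M : ℕ} {G : ℕ → ℝ → ℝ} (hC : Cell0 M G) {θ : ℝ} (hθ : 0 < θ) {x : ℝ} (hx : x ≤ θ / (20 * (M : ℝ))) :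
    Hs M θ G x = 0 := by
  unfold Hs
  refine Finset.sum_eq_zero fun j _ => ?_
  unfold hG cG
  rw [hC.low j (x / θ), zero_mul]
  rw [div_le_iff₀ hθ]
  calc x ≤ θ / (20 * (M : ℝ)) := hx
    _ = 1 / (20 * (M : ℝ)) * θ := by ring

theorem Low_high {M : ℕ} {G : ℕ → ℝ → ℝ} (hC : Cell0 M G) {θ : ℝ} (hθ : 0 < θ) (hlog : 0 < Real.log M) {x : ℝ}
    (hx : θ / (20 * Real.log M) ≤ x) : Hs M θ G x = 0 := by
  unfold Hs
  refine Finset.sum_eq_zero fun j hj => ?_
  unfold hG cG
  have hM : (0 : ℝ) < M := by
    have := hC.M_pos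
    exact_mod_cast (by omega : 0 < M)
  by_cases h : G j (x / θ) = 0
  · rw [h, zero_mul]
  · exfalso
    have h1 := (hC.cell j _ h).2
    have h2 : j ≤ JJ M := Nat.lt_succ_iff.1 (Finset.mem_range.1 hj)
    have h3 : (j : ℝ) ≤ M / (20 * Real.log M) := by
      calc (j : ℝ) ≤ (JJ M : ℝ) := by exact_mod_cast h2
        _ ≤ M / (20 * Real.log M) := Nat.floor_le (by positivity)
    have h4 : (j : ℝ) / M ≤ 1 / (20 * Real.log M) := by
      rw [div_le_iff₀ hM]
      calc (j : ℝ) ≤ M / (20 * Real.log M) := h3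
        _ = 1 / (20 * Real.log M) * M := by ring
    have h5 : x / θ < 1 / (20 * Real.log M) := h1.trans_le h4
    rw [div_lt_iff₀ hθ] at h5
    have h6 : θ / (20 * Real.log M) = 1 / (20 * Real.log M) * θ := by ring
    linarith

theorem Low_sh {M : ℕ} {G : ℕ → ℝ → ℝ} (hC : Cell0 M G) {θ : ℝ} (hθ : 0 < θ) (hθ1 : θ < 1) (hlog : 1 ≤ Real.log M) :
    Sh (1 / 20) (fun x => (Hs M θ G x : ℂ)) := by
  have hM : (0 : ℝ) < M := by
    have := hC.M_pos
    exact_mod_cast (by omega : 0 < M)
  refine ⟨Complex.continuous_ofReal.comp (Low_cont hC θ), ⟨θ / (20 * (M : ℝ)), by positivity, fun x hx => ?_⟩,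
    fun x hx => ?_⟩
  · show ((Hs M θ G x : ℝ) : ℂ) = 0
    rw [Low_low hC hθ hx, Complex.ofReal_zero]
  · show ((Hs M θ G x : ℝ) : ℂ) = 0
    rw [Low_high hC hθ (by linarith), Complex.ofReal_zero]
    refine le_trans ?_ hx
    rw [div_le_div_iff₀ (by positivity) (by norm_num)]
    nlinarith

/-- different scales are orthogonal -/
theorem Low_orth {M N : ℕ} {G G' : ℕ → ℝ → ℝ} (hC : Cell0 M G) (hC' : Cell0 N G') {θ : ℝ} (hθ : 0 < θ)
    (hMN : (M : ℝ) ≤ Real.log N) : ∫ x in Ioi (0 : ℝ), Hs M θ G x * Hs N θ G' x / x = 0 := by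
  have hM : (0 : ℝ) < M := by
    have := hC.M_pos
    exact_mod_cast (by omega : 0 < M)
  have e : (fun x => Hs M θ G x * Hs N θ G' x / x) = fun _ => 0 := by
    funext x
    rcases le_total x (θ / (20 * (M : ℝ))) with h | h
    · rw [Low_low hC hθ h]; simp
    · rw [Low_high hC' hθ (by linarith) (x := x)]
      · simp
      · refine le_trans ?_ h
        apply div_le_div_of_nonneg_left hθ.le (by positivity)
        linarith
  rw [e]
  simp

theorem Low_int {M : ℕ} {G : ℕ → ℝ → ℝ} (hC : Cell0 M G) {θ : ℝ} (hθ : 0 < θ) {F : ℝ → ℝ} (hF : Continuous F)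
    (h0 : ∀ x, x ≤ θ / (20 * (M : ℝ)) → F x = 0) (h1 : ∃ b, ∀ x, b ≤ x → F x = 0) :
    IntegrableOn (fun x => F x / x) (Ioi 0) := by
  have hM : (0 : ℝ) < M := by
    have := hC.M_pos
    exact_mod_cast (by omega : 0 < M)
  obtain ⟨b, hb⟩ := h1
  have ha : 0 < θ / (20 * (M : ℝ)) := by positivity
  have hsub : Function.support (fun x => F x / x) ⊆ Icc (θ / (20 * (M : ℝ))) b := by
    intro x hx
    rw [Function.mem_support] at hx
    constructor
    · by_contra h
      exact hx (by show F x / x = 0; rw [h0 x (not_le.1 h).le, zero_div])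
    · by_contra h
      exact hx (by show F x / x = 0; rw [hb x (not_le.1 h).le, zero_div])
  have hon : IntegrableOn (fun x => F x / x) (Icc (θ / (20 * (M : ℝ))) b) := by
    apply ContinuousOn.integrableOn_Icc
    apply hF.continuousOn.div continuousOn_id
    intro x hx
    exact (ha.trans_le hx.1).ne'
  exact ((integrableOn_iff_integrable_of_support_subset hsub).1 hon).integrableOn

/-- the variance of the low band field -/
theorem Low_var {M : ℕ} {G : ℕ → ℝ → ℝ} (hC : Cell0 M G) {θ : ℝ} (hθ : 0 < θ) (hθ1 : θ < 1) (hlog : 1 ≤ Real.log M)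
    (J' : ℕ) (hJ : J' ≤ JJ M) (hJM : J' < M) (hJy : 4 * π * J' * yy M ≤ M) :
    Real.exp (-1) * Real.log (J' + 1) ≤ ∫ x in Ioi (0 : ℝ), Hs M θ G x * Hs M θ G x / x := by
  have hM : (0 : ℝ) < M := by
    have := hC.M_pos
    exact_mod_cast (by omega : 0 < M)
  have hy : 0 ≤ yy M := by unfold yy; positivity
  -- each cell
  have hcell : ∀ j ∈ Finset.Icc 1 J', Real.exp (-1) * (1 / (j : ℝ)) ≤
      ∫ x in Ioi (0 : ℝ), hG (yy M) (cG θ G) j x ^ 2 / x := by
    intro j hj
    rw [Finset.mem_Icc] at hj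
    have hj0 : (0 : ℝ) < j := by exact_mod_cast hj.1
    have hs : ∫ x in Ioi (0 : ℝ), G j (x / θ) ^ 2 / x = 1 / (j : ℝ) := by
      rw [← hC.norm j hj.1 (by omega)]
      have h := integral_comp_mul_left_Ioi (fun u => G j u ^ 2 / u) 0 (inv_pos.2 hθ)
      rw [mul_zero, inv_inv, smul_eq_mul] at h
      have h2 : (fun x => G j (x / θ) ^ 2 / x) = fun x => θ⁻¹ * (G j (θ⁻¹ * x) ^ 2 / (θ⁻¹ * x)) := by
        funext x
        rw [div_eq_inv_mul x θ]
        by_cases hx : x = 0
        · rw [hx]; simp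
        · field_simp
      rw [h2, integral_const_mul, h, ← mul_assoc, inv_mul_cancel₀ hθ.ne', one_mul]
    rw [← hs, ← integral_const_mul]
    have hGhigh : ∀ x, θ ≤ x → G j (x / θ) = 0 := by
      intro x hx
      by_contra h
      have h1 := (hC.cell j _ h).2
      have h2 : (j : ℝ) / M ≤ 1 := by
        rw [div_le_one hM]
        exact_mod_cast (by omega : j ≤ M)
      have h3 : 1 ≤ x / θ := by rwa [le_div_iff₀ hθ, one_mul]
      linarith
    have hGlow : ∀ x, x ≤ θ / (20 * (M : ℝ)) → G j (x / θ) = 0 := by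
      intro x hx
      apply hC.low
      rw [div_le_iff₀ hθ]
      calc x ≤ θ / (20 * (M : ℝ)) := hx
        _ = 1 / (20 * (M : ℝ)) * θ := by ring
    have hc : Continuous (fun x => G j (x / θ)) := (hC.smooth j).continuous.comp (continuous_id.div_const θ)
    apply setIntegral_mono_on
    · refine (Low_int hC hθ (F := fun x => G j (x / θ) ^ 2) (hc.pow 2) (fun x hx => ?_) ⟨θ, fun x hx => ?_⟩).const_mul _
      · show G j (x / θ) ^ 2 = 0
        rw [hGlow x hx]; norm_num
      · show G j (x / θ) ^ 2 = 0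
        rw [hGhigh x hx]; norm_num
    · refine Low_int hC hθ (F := fun x => hG (yy M) (cG θ G) j x ^ 2) ?_ (fun x hx => ?_) ⟨θ, fun x hx => ?_⟩
      · unfold hG cG
        exact (hc.mul (by fun_prop)).pow 2
      · show (G j (x / θ) * _) ^ 2 = 0
        rw [hGlow x hx]; norm_num
      · show (G j (x / θ) * _) ^ 2 = 0
        rw [hGhigh x hx]; norm_num
    · exact measurableSet_Ioi
    · intro x hx
      have hx0 : 0 < x := hx
      show Real.exp (-1) * (G j (x / θ) ^ 2 / x) ≤ (G j (x / θ) * Real.exp (-(2 * π * x * yy M))) ^ 2 / x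
      by_cases h : G j (x / θ) = 0
      · rw [h]; simp
      · have h1 := (hC.cell j _ h).2
        have h2 : x < θ * (j / M) := by
          rw [div_lt_iff₀ hθ] at h1
          linarith
        have h3 : x ≤ j / M := by
          have : 0 < (j : ℝ) / M := by positivity
          nlinarith
        have h4 : 4 * π * x * yy M ≤ 1 := by
          have hjJ : (j : ℝ) ≤ J' := by exact_mod_cast hj.2
          have hpy : 0 ≤ 4 * π * yy M := by positivity
          calc 4 * π * x * yy M = (4 * π * yy M) * x := by ring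
            _ ≤ (4 * π * yy M) * (j / M) := mul_le_mul_of_nonneg_left h3 hpy
            _ ≤ (4 * π * yy M) * (J' / M) := mul_le_mul_of_nonneg_left (div_le_div_of_nonneg_right hjJ hM.le) hpy
            _ = (4 * π * J' * yy M) / M := by ring
            _ ≤ 1 := by rwa [div_le_one hM]
        rw [mul_pow, ← Real.exp_nat_mul, mul_comm (G j (x / θ) ^ 2), mul_div_assoc]
        apply mul_le_mul_of_nonneg_right _ (by positivity)
        apply Real.exp_le_exp.2
        push_cast
        linarith
  have hharm : Real.log (J' + 1) ≤ ∑ j ∈ Finset.Icc 1 J', 1 / (j : ℝ) := by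
    have h := log_add_one_le_harmonic J'
    rw [harmonic_eq_sum_Icc] at h
    push_cast at h
    simpa using h
  calc Real.exp (-1) * Real.log (J' + 1) ≤ Real.exp (-1) * ∑ j ∈ Finset.Icc 1 J', 1 / (j : ℝ) :=
        mul_le_mul_of_nonneg_left hharm (Real.exp_pos _).le
    _ = ∑ j ∈ Finset.Icc 1 J', Real.exp (-1) * (1 / (j : ℝ)) := Finset.mul_sum _ _ _
    _ ≤ ∑ j ∈ Finset.Icc 1 J', ∫ x in Ioi (0 : ℝ), hG (yy M) (cG θ G) j x ^ 2 / x := Finset.sum_le_sum hcell
    _ = ∫ x in Ioi (0 : ℝ), ∑ j ∈ Finset.Icc 1 J', hG (yy M) (cG θ G) j x ^ 2 / x := by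
        rw [integral_finsetSum]
        intro j hj
        rw [Finset.mem_Icc] at hj
        have hc : Continuous (fun x => G j (x / θ)) := (hC.smooth j).continuous.comp (continuous_id.div_const θ)
        refine Low_int hC hθ (F := fun x => hG (yy M) (cG θ G) j x ^ 2) ?_ (fun x hx => ?_) ⟨θ, fun x hx => ?_⟩
        · unfold hG cG
          exact (hc.mul (by fun_prop)).pow 2
        · show (G j (x / θ) * _) ^ 2 = 0
          rw [hC.low]
          · norm_num
          · rw [div_le_iff₀ hθ]
            calc x ≤ θ / (20 * (M : ℝ)) := hx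
              _ = 1 / (20 * (M : ℝ)) * θ := by ring
        · show (G j (x / θ) * _) ^ 2 = 0
          have : G j (x / θ) = 0 := by
            by_contra h
            have h1 := (hC.cell j _ h).2
            have h2 : (j : ℝ) / M ≤ 1 := by
              rw [div_le_one hM]
              exact_mod_cast (by omega : j ≤ M)
            have h3 : 1 ≤ x / θ := by rwa [le_div_iff₀ hθ, one_mul]
            linarith
          rw [this]; norm_num
    _ ≤ ∫ x in Ioi (0 : ℝ), Hs M θ G x * Hs M θ G x / x := by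
        apply setIntegral_mono_on
        · apply integrable_finsetSum
          intro j hj
          rw [Finset.mem_Icc] at hj
          have hc : Continuous (fun x => G j (x / θ)) := (hC.smooth j).continuous.comp (continuous_id.div_const θ)
          refine Low_int hC hθ (F := fun x => hG (yy M) (cG θ G) j x ^ 2) ?_ (fun x hx => ?_) ⟨θ, fun x hx => ?_⟩
          · unfold hG cG
            exact (hc.mul (by fun_prop)).pow 2
          · show (G j (x / θ) * _) ^ 2 = 0
            rw [hC.low]
            · norm_num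
            · rw [div_le_iff₀ hθ]
              calc x ≤ θ / (20 * (M : ℝ)) := hx
                _ = 1 / (20 * (M : ℝ)) * θ := by ring
          · show (G j (x / θ) * _) ^ 2 = 0
            have : G j (x / θ) = 0 := by
              by_contra h
              have h1 := (hC.cell j _ h).2
              have h2 : (j : ℝ) / M ≤ 1 := by
                rw [div_le_one hM]
                exact_mod_cast (by omega : j ≤ M)
              have h3 : 1 ≤ x / θ := by rwa [le_div_iff₀ hθ, one_mul]
              linarith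
            rw [this]; norm_num
        · refine Low_int hC hθ (F := fun x => Hs M θ G x * Hs M θ G x) ((Low_cont hC θ).mul (Low_cont hC θ))
            (fun x hx => ?_) ⟨θ / (20 * Real.log M), fun x hx => ?_⟩
          · show Hs M θ G x * Hs M θ G x = 0
            rw [Low_low hC hθ hx, mul_zero]
          · show Hs M θ G x * Hs M θ G x = 0
            rw [Low_high hC hθ (by linarith) hx, mul_zero]
        · exact measurableSet_Ioi
        · intro x hx
          have hx0 : 0 < x := hx
          rw [← Finset.sum_div]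
          apply div_le_div_of_nonneg_right _ hx0.le
          have hnn : ∀ j, 0 ≤ hG (yy M) (cG θ G) j x := fun j => mul_nonneg (hC.nonneg _ _) (Real.exp_pos _).le
          have hsub : Finset.Icc 1 J' ⊆ Finset.range (JJ M + 1) := by
            intro j hj
            rw [Finset.mem_Icc] at hj
            exact Finset.mem_range.2 (by omega)
          calc ∑ j ∈ Finset.Icc 1 J', hG (yy M) (cG θ G) j x ^ 2
              ≤ ∑ j ∈ Finset.range (JJ M + 1), hG (yy M) (cG θ G) j x ^ 2 :=
                Finset.sum_le_sum_of_subset_of_nonneg hsub fun j _ _ => sq_nonneg _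
            _ ≤ ∑ j ∈ Finset.range (JJ M + 1), hG (yy M) (cG θ G) j x * Hs M θ G x := by
                refine Finset.sum_le_sum fun j hj => ?_
                rw [sq]
                exact mul_le_mul_of_nonneg_left (Finset.single_le_sum (f := fun i => hG (yy M) (cG θ G) i x)
                  (fun i _ => hnn i) hj) (hnn j)
            _ = Hs M θ G x * Hs M θ G x := by rw [← Finset.sum_mul]; rfl

end Pool.Agent.H67.AH
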