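import Mathlib

/-!
# MP_103a5c_AH: a quartic majorant of `1_{x ≥ -1/10}` with Gaussian mean `67/75`
-/

namespace Pool.Agent.H67.AH

/-- The quartic `x⁴/18 - x³/20 - x²/3 + 9x/20 + 53/50` (Gaussian mean `67/75 < 1`). -/
noncomputable def qq (x : ℝ) : ℝ := x ^ 4 / 18 - x ^ 3 / 20 - x ^ 2 / 3 + 9 * x / 20 + 53 / 50

theorem qq_nonneg (x : ℝ) : 0 ≤ qq x := by
  have h : 18 * qq x = (x ^ 2 - 9 / 20 * x - 4) ^ 2 + (1.7975 * x ^ 2 + 4.5 * x + 3.08) := by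
    unfold qq; ring
  have h2 : 0 ≤ 1.7975 * x ^ 2 + 4.5 * x + 3.08 := by
    nlinarith [sq_nonneg (x + 5 / 4)]
  nlinarith [sq_nonneg (x ^ 2 - 9 / 20 * x - 4)]

theorem qq_one_le {x : ℝ} (hx : -(1 / 10) ≤ x) : 1 ≤ qq x := by
  have h : 18 * (qq x - 1) = (x + 1 / 10) * (x ^ 3 - x ^ 2 - 5.9 * x + 8.69) + 0.211 := by
    unfold qq; ring
  have h2 : 0 ≤ x ^ 3 - x ^ 2 - 5.9 * x + 8.69 := by
    have h3 : x ^ 3 - x ^ 2 - 5.9 * x + 8.69 = (x - 1.775) ^ 2 * (x + 2.55) + 0.001875 * x + (8.69 - 1.775 ^ 2 * 2.55) := by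
      ring
    rw [h3]
    have h4 : 0 ≤ (x - 1.775) ^ 2 * (x + 2.55) := by
      apply mul_nonneg (sq_nonneg _)
      linarith
    have h5 : (0 : ℝ) ≤ 0.001875 * x + (8.69 - 1.775 ^ 2 * 2.55) := by
      norm_num
      linarith
    linarith
  have h6 : 0 ≤ (x + 1 / 10) * (x ^ 3 - x ^ 2 - 5.9 * x + 8.69) := mul_nonneg (by linarith) h2
  linarith

end Pool.Agent.H67.AH
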