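import Mathlib
import Pool.Agent.H67.AH.Ga
import Pool.Agent.H67.AH.Mean
import Pool.Agent.H67.AH.Low
import Pool.Agent.H67.AH.Q

/-!
# MP_103a5c_AH: (MS) many scales
-/

open MeasureTheory Set Filter Topology
open scoped Real ContDiff ComplexConjugate

namespace Pool.Agent.H67.AH

open Pool.Agent Pool.Agent.H14.GP Pool.Agent.H24.HF Pool.Agent.H24.AH Pool.Agent.H67.HF Pool.Agent.H68.AH

/-- the coefficients of `67/75 - qq` -/
noncomputable def pc (n : ℕ) : ℝ := if n = 0 then -(1 / 6) else if n = 1 then -(9 / 20) else if n = 2 then 1 / 3 else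
  if n = 3 then 1 / 20 else if n = 4 then -(1 / 18) else 0

/-- `67/75 - qq` -/
noncomputable def pp (x : ℝ) : ℝ := ∑ n ∈ Finset.range 5, pc n * x ^ n

theorem Ms_pp (x : ℝ) : pp x = 67 / 75 - qq x := by
  unfold pp qq
  simp only [Finset.sum_range_succ, Finset.sum_range_zero, pc]
  norm_num
  ring

theorem Ms_gm (n : ℕ) (hn : n < 9) : gm 2 n = if n = 0 then 1 else if n = 2 then 1 else if n = 4 then 3 else
    if n = 6 then 15 else if n = 8 then 105 else 0 := by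
  unfold gm
  interval_cases n <;> norm_num [Finset.sum_range_succ, Nat.choose, Nat.factorial]

theorem Ms_scale {s : ℝ} (hs : s ≠ 0) (a : ℕ) : gm (2 * s ^ 2) a * (s⁻¹) ^ a = gm 2 a := by
  unfold gm
  rw [Finset.sum_mul]
  refine Finset.sum_congr rfl fun k hk => ?_
  have hk' : k ≤ a := Nat.lt_succ_iff.1 (Finset.mem_range.1 hk)
  by_cases h : a - k = k
  · rw [if_pos h, if_pos h]
    have ha : a = 2 * k := by omega
    have h1 : s ^ 2 ^ 1 = s ^ 2 := by norm_num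
    have h2 : (s ^ 2) ^ k * (s⁻¹) ^ a = 1 := by
      rw [ha, ← pow_mul, ← mul_pow, mul_inv_cancel₀ hs, one_pow]
    rw [mul_pow]
    calc _ = (a.choose k : ℝ) / 2 ^ a * ((k.factorial : ℝ) * 2 ^ k) * ((s ^ 2) ^ k * (s⁻¹) ^ a) := by ring
      _ = _ := by rw [h2, mul_one]
  · rw [if_neg h, if_neg h]
    simp

theorem Ms_pp_gm : ∑ n ∈ Finset.range 5, pc n * gm 2 n = 0 := by
  simp only [Finset.sum_range_succ, Finset.sum_range_zero]
  rw [Ms_gm 0 (by norm_num), Ms_gm 1 (by norm_num), Ms_gm 2 (by norm_num), Ms_gm 3 (by norm_num), Ms_gm 4 (by norm_num)]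
  norm_num [pc]

/-- `E (67/75 - qq)²` for a Gaussian variable -/
noncomputable def v0 : ℝ := ∑ n ∈ Finset.range 5, ∑ m ∈ Finset.range 5, pc n * pc m * gm 2 (n + m)

theorem Ms_Xcont (H : ℝ → ℝ) (T : ℝ) : Continuous (fun t => (ev t (bb H T)).re) :=
  Complex.continuous_re.comp (Ga_cont H T)

theorem Ms_expand (x y s s' : ℝ) : pp (x / s) * pp (y / s') = ∑ q ∈ Finset.range 5 ×ˢ Finset.range 5,
    (pc q.1 * pc q.2 * (s⁻¹) ^ q.1 * (s'⁻¹) ^ q.2) * (x ^ q.1 * y ^ q.2) := by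
  unfold pp
  rw [Finset.sum_mul_sum, ← Finset.sum_product']
  refine Finset.sum_congr rfl fun q _ => ?_
  rw [div_eq_mul_inv, div_eq_mul_inv, mul_pow, mul_pow]
  ring

theorem Ms_pair {v : ℝ → ℝ} (hv : Wgt v) {H K : ℝ → ℝ} (hH : Sh (1 / 20) (fun x => (H x : ℂ)))
    (hK : Sh (1 / 20) (fun x => (K x : ℂ))) (hHK : ∫ x in Ioi (0 : ℝ), H x * K x / x = 0) {s s' : ℝ} (hs : 0 < s)
    (hs' : 0 < s') (h1 : ∫ x in Ioi (0 : ℝ), H x * H x / x = 2 * s ^ 2)
    (h2 : ∫ x in Ioi (0 : ℝ), K x * K x / x = 2 * s' ^ 2) :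
    Tendsto (fun T => EE v T (fun t => pp ((ev t (bb H T)).re / s) * pp ((ev t (bb K T)).re / s'))) atTop (𝓝 0) := by
  have hlim : ∀ q ∈ Finset.range 5 ×ˢ Finset.range 5, Tendsto (fun T => (pc q.1 * pc q.2 * (s⁻¹) ^ q.1 * (s'⁻¹) ^ q.2) *
      EE v T (fun t => (ev t (bb H T)).re ^ q.1 * (ev t (bb K T)).re ^ q.2)) atTop
      (𝓝 ((pc q.1 * pc q.2 * (s⁻¹) ^ q.1 * (s'⁻¹) ^ q.2) * ((∫ x, v x) * (gm (2 * s ^ 2) q.1 * gm (2 * s' ^ 2) q.2)))) := by
    intro q hq
    rw [Finset.mem_product, Finset.mem_range, Finset.mem_range] at hq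
    rw [← h1, ← h2]
    refine (Ga_two hv (by norm_num) hH hK hHK q.1 q.2 ?_).const_mul _
    have e1 : (q.1 : ℝ) ≤ 4 := by exact_mod_cast Nat.lt_succ_iff.1 hq.1
    have e2 : (q.2 : ℝ) ≤ 4 := by exact_mod_cast Nat.lt_succ_iff.1 hq.2
    linarith
  have hsum := tendsto_finsetSum _ hlim
  have hval : ∑ q ∈ Finset.range 5 ×ˢ Finset.range 5, (pc q.1 * pc q.2 * (s⁻¹) ^ q.1 * (s'⁻¹) ^ q.2) *
      ((∫ x, v x) * (gm (2 * s ^ 2) q.1 * gm (2 * s' ^ 2) q.2)) = 0 := by
    have e : ∀ q ∈ Finset.range 5 ×ˢ Finset.range 5, (pc q.1 * pc q.2 * (s⁻¹) ^ q.1 * (s'⁻¹) ^ q.2) *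
        ((∫ x, v x) * (gm (2 * s ^ 2) q.1 * gm (2 * s' ^ 2) q.2)) = (∫ x, v x) * ((pc q.1 * gm 2 q.1) * (pc q.2 * gm 2 q.2)) := by
      intro q _
      rw [← Ms_scale hs.ne' q.1, ← Ms_scale hs'.ne' q.2]
      ring
    have e2 : ∑ q ∈ Finset.range 5 ×ˢ Finset.range 5, (pc q.1 * gm 2 q.1) * (pc q.2 * gm 2 q.2) =
        (∑ n ∈ Finset.range 5, pc n * gm 2 n) * (∑ n ∈ Finset.range 5, pc n * gm 2 n) := by
      rw [Finset.sum_mul_sum, ← Finset.sum_product']
    rw [Finset.sum_congr rfl e, ← Finset.mul_sum, e2, Ms_pp_gm]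
    ring
  rw [hval] at hsum
  refine hsum.congr' ?_
  filter_upwards [eventually_gt_atTop 0] with T hT
  rw [← EE_sum hv hT]
  · congr 1
    funext t
    rw [Ms_expand]
  · intro q _
    exact ((Ms_Xcont H T).pow _).mul ((Ms_Xcont K T).pow _)

theorem Ms_diag {v : ℝ → ℝ} (hv : Wgt v) {H : ℝ → ℝ} (hH : Sh (1 / 20) (fun x => (H x : ℂ))) {s : ℝ} (hs : 0 < s)
    (h1 : ∫ x in Ioi (0 : ℝ), H x * H x / x = 2 * s ^ 2) :
    Tendsto (fun T => EE v T (fun t => pp ((ev t (bb H T)).re / s) * pp ((ev t (bb H T)).re / s))) atTop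
      (𝓝 ((∫ x, v x) * v0)) := by
  have hK : Sh (1 / 20) (fun _ => ((0 : ℝ) : ℂ)) := by
    refine ⟨continuous_const, ⟨1, one_pos, fun x _ => by simp⟩, fun x _ => by simp⟩
  have hHK : ∫ x in Ioi (0 : ℝ), H x * (fun _ : ℝ => (0 : ℝ)) x / x = 0 := by simp
  have hlim : ∀ q ∈ Finset.range 5 ×ˢ Finset.range 5, Tendsto (fun T => (pc q.1 * pc q.2 * (s⁻¹) ^ q.1 * (s⁻¹) ^ q.2) *
      EE v T (fun t => (ev t (bb H T)).re ^ q.1 * (ev t (bb H T)).re ^ q.2)) atTop
      (𝓝 ((pc q.1 * pc q.2 * (s⁻¹) ^ q.1 * (s⁻¹) ^ q.2) * ((∫ x, v x) * gm (2 * s ^ 2) (q.1 + q.2)))) := by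
    intro q hq
    rw [Finset.mem_product, Finset.mem_range, Finset.mem_range] at hq
    rw [← h1]
    have e1 : (q.1 : ℝ) ≤ 4 := by exact_mod_cast Nat.lt_succ_iff.1 hq.1
    have e2 : (q.2 : ℝ) ≤ 4 := by exact_mod_cast Nat.lt_succ_iff.1 hq.2
    have h := Ga_two hv (by norm_num) hH hK hHK (q.1 + q.2) 0 (by push_cast; linarith)
    have e3 : gm (∫ x in Ioi (0 : ℝ), (fun _ : ℝ => (0 : ℝ)) x * (fun _ : ℝ => (0 : ℝ)) x / x) 0 = 1 := by
      unfold gm
      simp
    rw [e3, mul_one] at h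
    refine Tendsto.const_mul _ (h.congr fun T => ?_)
    congr 1
    funext t
    rw [pow_zero, mul_one, pow_add]
  have hsum := tendsto_finsetSum _ hlim
  have hval : ∑ q ∈ Finset.range 5 ×ˢ Finset.range 5, (pc q.1 * pc q.2 * (s⁻¹) ^ q.1 * (s⁻¹) ^ q.2) *
      ((∫ x, v x) * gm (2 * s ^ 2) (q.1 + q.2)) = (∫ x, v x) * v0 := by
    have e : ∀ q ∈ Finset.range 5 ×ˢ Finset.range 5, (pc q.1 * pc q.2 * (s⁻¹) ^ q.1 * (s⁻¹) ^ q.2) *
        ((∫ x, v x) * gm (2 * s ^ 2) (q.1 + q.2)) = (∫ x, v x) * (pc q.1 * pc q.2 * gm 2 (q.1 + q.2)) := by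
      intro q _
      rw [← Ms_scale hs.ne' (q.1 + q.2), pow_add]
      ring
    rw [Finset.sum_congr rfl e, ← Finset.mul_sum, Finset.sum_product]
    rfl
  rw [hval] at hsum
  refine hsum.congr' ?_
  filter_upwards [eventually_gt_atTop 0] with T hT
  rw [← EE_sum hv hT]
  · congr 1
    funext t
    rw [Ms_expand]
  · intro q _
    exact ((Ms_Xcont H T).pow _).mul ((Ms_Xcont H T).pow _)

/-- Second moment method for pairwise orthogonal test functions. -/
theorem Ms_main {α β : ℝ} (hα : 0 < α) (hαβ : α < β) (hβ : β < 1) {r : ℕ} (hr : 0 < r) {H : ℕ → ℝ → ℝ} {s : ℕ → ℝ}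
    (hH : ∀ i < r, Sh (1 / 20) (fun x => (H i x : ℂ))) (hs : ∀ i < r, 0 < s i)
    (h1 : ∀ i < r, ∫ x in Ioi (0 : ℝ), H i x * H i x / x = 2 * s i ^ 2)
    (h2 : ∀ i < r, ∀ j < r, i ≠ j → ∫ x in Ioi (0 : ℝ), H i x * H j x / x = 0) :
    Rare atTop α β ((|v0| + 1) * (75 / 8) ^ 2 / r)
      (fun T => {t | ∀ i < r, -(1 / 10) ≤ (ev t (bb (H i) T)).re / s i}) := by
  obtain ⟨v, hv, hv1, -, -, hvI⟩ := Mean_wgt hα hαβ hβ
  have hvI0 : 0 ≤ ∫ x, v x := integral_nonneg hv.nonneg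
  have hr0 : (0 : ℝ) < r := by exact_mod_cast hr
  set f : ℝ → ℝ → ℝ := fun T t => (∑ i ∈ Finset.range r, pp ((ev t (bb (H i) T)).re / s i)) ^ 2 with hf
  have hppc : Continuous pp := by
    unfold pp
    fun_prop
  have hfc : ∀ T, Continuous (f T) := fun T => (continuous_finsetSum _ fun i _ =>
    hppc.comp ((Ms_Xcont (H i) T).div_const (s i))).pow 2
  have hlim : Tendsto (fun T => EE v T (f T)) atTop (𝓝 (∑ q ∈ Finset.range r ×ˢ Finset.range r,
      if q.1 = q.2 then (∫ x, v x) * v0 else 0)) := by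
    have hpair : ∀ q ∈ Finset.range r ×ˢ Finset.range r, Tendsto (fun T => (1 : ℝ) * EE v T (fun t =>
        pp ((ev t (bb (H q.1) T)).re / s q.1) * pp ((ev t (bb (H q.2) T)).re / s q.2))) atTop
        (𝓝 (if q.1 = q.2 then (∫ x, v x) * v0 else 0)) := by
      intro q hq
      rw [Finset.mem_product, Finset.mem_range, Finset.mem_range] at hq
      simp only [one_mul]
      by_cases h : q.1 = q.2
      · rw [if_pos h, ← h]
        exact Ms_diag hv (hH _ hq.1) (hs _ hq.1) (h1 _ hq.1)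
      · rw [if_neg h]
        exact Ms_pair hv (hH _ hq.1) (hH _ hq.2) (h2 _ hq.1 _ hq.2 h) (hs _ hq.1) (hs _ hq.2) (h1 _ hq.1) (h1 _ hq.2)
    refine (tendsto_finsetSum _ hpair).congr' ?_
    filter_upwards [eventually_gt_atTop 0] with T hT
    rw [← EE_sum hv hT]
    · congr 1
      funext t
      simp only [hf, one_mul]
      rw [sq, Finset.sum_mul_sum, ← Finset.sum_product']
    · intro q _
      exact (hppc.comp ((Ms_Xcont _ T).div_const _)).mul (hppc.comp ((Ms_Xcont _ T).div_const _))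
  have hsum : ∑ q ∈ Finset.range r ×ˢ Finset.range r, (if q.1 = q.2 then (∫ x, v x) * v0 else 0)
      = r * ((∫ x, v x) * v0) := by
    have e : ∀ i ∈ Finset.range r, ∑ j ∈ Finset.range r, (if i = j then (∫ x, v x) * v0 else 0) = (∫ x, v x) * v0 := by
      intro i hi
      rw [Finset.sum_ite_eq, if_pos hi]
    rw [Finset.sum_product, Finset.sum_congr rfl e, Finset.sum_const, Finset.card_range, nsmul_eq_mul]
  rw [hsum] at hlim
  have hI : ∀ᶠ T in atTop, EE v T (f T) ≤ r * (|v0| + 1) := by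
    have hlt : r * ((∫ x, v x) * v0) < r * (|v0| + 1) := by
      apply mul_lt_mul_of_pos_left _ hr0
      calc (∫ x, v x) * v0 ≤ (∫ x, v x) * |v0| := mul_le_mul_of_nonneg_left (le_abs_self _) hvI0
        _ ≤ 1 * |v0| := mul_le_mul_of_nonneg_right hvI (abs_nonneg _)
        _ < |v0| + 1 := by linarith
    filter_upwards [hlim.eventually (gt_mem_nhds hlt)] with T hT
    exact hT.le
  have hmain := Mean_rare (le_refl atTop) hv (fun x hx => (hv1 x hx).ge) (c := (r * (8 / 75)) ^ 2) (by positivity)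
    (fun T t => sq_nonneg _) hfc hI
  have heq : r * (|v0| + 1) / (r * (8 / 75)) ^ 2 = (|v0| + 1) * (75 / 8) ^ 2 / r := by
    field_simp
  rw [heq] at hmain
  refine Rare_mono hmain le_rfl le_rfl le_rfl le_rfl le_rfl (Eventually.of_forall fun T t _ ht => ?_)
  show (r * (8 / 75)) ^ 2 ≤ f T t
  have h3 : ∀ i ∈ Finset.range r, pp ((ev t (bb (H i) T)).re / s i) ≤ -(8 / 75) := by
    intro i hi
    rw [Ms_pp]
    have := qq_one_le (ht i (Finset.mem_range.1 hi))
    linarith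
  have h4 : ∑ i ∈ Finset.range r, pp ((ev t (bb (H i) T)).re / s i) ≤ -(r * (8 / 75)) := by
    calc _ ≤ ∑ i ∈ Finset.range r, (-(8 / 75) : ℝ) := Finset.sum_le_sum h3
      _ = -(r * (8 / 75)) := by rw [Finset.sum_const, Finset.card_range, nsmul_eq_mul]; ring
  have h5 : (0 : ℝ) ≤ r * (8 / 75) := by positivity
  simp only [hf]
  nlinarith

/-- Numerical facts for large `M`. -/
theorem Ms_large : ∃ M₀ : ℕ, 3 ≤ M₀ ∧ ∀ M : ℕ, M₀ ≤ M → 2 ≤ Real.log M ∧ 800 * lam M ^ 2 ≤ Real.log M ∧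
    Real.log M / 4 ≤ Real.exp (-1) * (Real.log M - Real.log (4 * π) - 3 * Real.log (Real.log M)) ∧
      yy M * (4 * π) ≤ M := by
  have hlog : Tendsto (fun M : ℕ => Real.log (M : ℝ)) atTop atTop := Real.tendsto_log_atTop.comp tendsto_natCast_atTop_atTop
  have e1 : ∀ᶠ M : ℕ in atTop, 2 ≤ Real.log M := hlog.eventually (eventually_ge_atTop 2)
  have e2 : ∀ᶠ M : ℕ in atTop, 800 * lam M ^ 2 ≤ Real.log M := by
    have h1 : Tendsto (fun x : ℝ => x ^ (1 / 10 : ℝ)) atTop atTop := tendsto_rpow_atTop (by norm_num)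
    filter_upwards [e1, (h1.comp hlog).eventually (eventually_ge_atTop 800)] with M h2 h3
    have h4 : lam M ^ 2 * Real.log M ^ (1 / 10 : ℝ) = Real.log M := by
      unfold lam
      rw [← Real.rpow_natCast, ← Real.rpow_mul (by linarith), ← Real.rpow_add (by linarith)]
      norm_num
    have h5 : 0 ≤ lam M ^ 2 := sq_nonneg _
    have h6 : (800 : ℝ) ≤ Real.log M ^ (1 / 10 : ℝ) := h3
    nlinarith
  have e3 : ∀ᶠ M : ℕ in atTop, Real.log M / 4 ≤ Real.exp (-1) * (Real.log M - Real.log (4 * π) - 3 * Real.log (Real.log M)) := by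
    have h1 : Tendsto (fun x : ℝ => Real.log x / x) atTop (𝓝 0) := by
      have := Real.tendsto_pow_log_div_mul_add_atTop 1 0 1 one_ne_zero
      simpa using this
    have h2 : Tendsto (fun x : ℝ => Real.log (4 * π) / x) atTop (𝓝 0) := tendsto_const_nhds.div_atTop tendsto_id
    have h3 : Tendsto (fun x : ℝ => Real.exp (-1) * (1 - Real.log (4 * π) / x - 3 * (Real.log x / x))) atTop
        (𝓝 (Real.exp (-1) * (1 - 0 - 3 * 0))) := ((tendsto_const_nhds.sub h2).sub (h1.const_mul 3)).const_mul _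
    have h4 : (1 : ℝ) / 4 < Real.exp (-1) * (1 - 0 - 3 * 0) := by
      have := Real.exp_neg_one_gt_d9
      norm_num at this ⊢
      linarith
    filter_upwards [e1, (h3.comp hlog).eventually (lt_mem_nhds h4)] with M h5 h6
    have h7 : (1 : ℝ) / 4 < Real.exp (-1) * (1 - Real.log (4 * π) / Real.log M - 3 * (Real.log (Real.log M) / Real.log M)) := h6
    have h8 : 0 < Real.log M := by linarith
    have h9 : Real.exp (-1) * (Real.log M - Real.log (4 * π) - 3 * Real.log (Real.log M)) =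
        Real.exp (-1) * (1 - Real.log (4 * π) / Real.log M - 3 * (Real.log (Real.log M) / Real.log M)) * Real.log M := by
      field_simp
    rw [h9]
    nlinarith
  have e4 : ∀ᶠ M : ℕ in atTop, yy M * (4 * π) ≤ M := by
    have h1 : Tendsto (fun x : ℝ => Real.log x ^ 3 / x) atTop (𝓝 0) := by
      have := Real.tendsto_pow_log_div_mul_add_atTop 1 0 3 one_ne_zero
      simpa using this
    have h2 : (0 : ℝ) < 1 / (4 * π) := by positivity
    filter_upwards [(h1.comp tendsto_natCast_atTop_atTop).eventually (gt_mem_nhds h2), eventually_gt_atTop 0] with M h3 h4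
    have h5 : Real.log (M : ℝ) ^ 3 / M < 1 / (4 * π) := h3
    have h6 : (0 : ℝ) < M := by exact_mod_cast h4
    rw [div_lt_div_iff₀ h6 (by positivity)] at h5
    unfold yy
    linarith
  obtain ⟨M₀, hM₀⟩ := Filter.eventually_atTop.1 (e1.and (e2.and (e3.and e4)))
  refine ⟨max M₀ 3, le_max_right _ _, fun M hM => ?_⟩
  have := hM₀ M ((le_max_left _ _).trans hM)
  exact ⟨this.1, this.2.1, this.2.2.1, this.2.2.2⟩

theorem Ms_c {M : ℕ} {G : ℕ → ℝ → ℝ} (hC : Cell0 M G) {θ : ℝ} (hθ : 0 < θ) (hθ1 : θ < 1) (h1 : 2 ≤ Real.log M)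
    (h3 : Real.log M / 4 ≤ Real.exp (-1) * (Real.log M - Real.log (4 * π) - 3 * Real.log (Real.log M)))
    : Real.log M / 4 ≤ ∫ x in Ioi (0 : ℝ), Hs M θ G x * Hs M θ G x / x := by
  have hM : (0 : ℝ) < M := by
    have := hC.M_pos
    exact_mod_cast (by omega : 0 < M)
  have hy : 1 ≤ yy M := by
    unfold yy
    exact one_le_pow₀ (by linarith)
  have hpi := Real.pi_gt_three
  have hz : 0 < 4 * π * yy M := by positivity
  set J' : ℕ := ⌊(M : ℝ) / (4 * π * yy M)⌋₊ with hJ'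
  have hJ1 : (J' : ℝ) ≤ M / (4 * π * yy M) := Nat.floor_le (by positivity)
  have hJ2 : (M : ℝ) / (4 * π * yy M) < J' + 1 := Nat.lt_floor_add_one _
  have hJJ : J' ≤ JJ M := by
    unfold JJ
    apply Nat.floor_le_floor
    have hcase : 20 * Real.log M ≤ 4 * π * yy M := by
      unfold yy
      have h5 : 4 ≤ Real.log M ^ 2 := by nlinarith
      have h6 : 4 * Real.log M ≤ Real.log M ^ 3 := by
        calc 4 * Real.log M ≤ Real.log M ^ 2 * Real.log M := mul_le_mul_of_nonneg_right h5 (by linarith)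
          _ = Real.log M ^ 3 := by ring
      have h7 : 0 < Real.log (M : ℝ) ^ 3 := by positivity
      nlinarith
    exact div_le_div_of_nonneg_left hM.le (by positivity) hcase
  have hJM : J' < M := by
    have : (J' : ℝ) < M := by
      refine hJ1.trans_lt ?_
      rw [div_lt_iff₀ hz]
      have h5 : 1 < 4 * π * yy M := by nlinarith
      calc (M : ℝ) = M * 1 := (mul_one _).symm
        _ < M * (4 * π * yy M) := mul_lt_mul_of_pos_left h5 hM
    exact_mod_cast this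
  have hJy : 4 * π * J' * yy M ≤ M := by
    calc 4 * π * J' * yy M = J' * (4 * π * yy M) := by ring
      _ ≤ M / (4 * π * yy M) * (4 * π * yy M) := mul_le_mul_of_nonneg_right hJ1 hz.le
      _ = M := by field_simp
  refine h3.trans ((mul_le_mul_of_nonneg_left ?_ (Real.exp_pos _).le).trans (Low_var hC hθ hθ1 (by linarith) J' hJJ hJM hJy))
  have h5 : Real.log (M / (4 * π * yy M)) = Real.log M - Real.log (4 * π) - 3 * Real.log (Real.log M) := by
    rw [Real.log_div hM.ne' hz.ne', Real.log_mul (by positivity) (by positivity)]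
    unfold yy
    rw [Real.log_pow]
    push_cast
    ring
  rw [← h5]
  exact Real.log_le_log (by positivity) hJ2.le

/-- (MS) -/
theorem MS : ∃ (K₄ : ℝ) (M₀ : ℕ), 0 < K₄ ∧ ∀ (r : ℕ) (Ms : ℕ → ℕ) (Gs : ℕ → ℕ → ℝ → ℝ), 0 < r → (∀ i, M₀ ≤ Ms i) →
    (∀ i, Real.exp (Ms i) ≤ Ms (i + 1)) → (∀ i, Cell0 (Ms i) (Gs i)) → ∀ θ : ℝ, 1 / 2 < θ → θ < 1 →
      ∀ α β : ℝ, 0 < α → α < β → β < 1 →
        Rare atTop α β (K₄ / r) (fun T => {t | ∀ i < r, -XX (Ms i) (cG θ (Gs i)) T t < lam (Ms i)}) := by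
  obtain ⟨M₀, hM₀3, hM₀⟩ := Ms_large
  refine ⟨(|v0| + 1) * (75 / 8) ^ 2, M₀, by positivity, ?_⟩
  intro r Ms Gs hr hMs hexp hC θ hθ hθ1 α β hα hαβ hβ
  have hθ0 : 0 < θ := by linarith
  have hlarge := fun i => hM₀ (Ms i) (hMs i)
  set c : ℕ → ℝ := fun i => ∫ x in Ioi (0 : ℝ), Hs (Ms i) θ (Gs i) x * Hs (Ms i) θ (Gs i) x / x with hc
  have hcl : ∀ i, Real.log (Ms i) / 4 ≤ c i := fun i =>
    Ms_c (hC i) hθ0 hθ1 (hlarge i).1 (hlarge i).2.2.1
  have hlog2 : ∀ i, 2 ≤ Real.log (Ms i) := fun i => (hlarge i).1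
  have hcpos : ∀ i, 0 < c i := fun i => by linarith [hcl i, hlog2 i]
  set s : ℕ → ℝ := fun i => Real.sqrt (c i / 2) with hs
  have hspos : ∀ i, 0 < s i := fun i => Real.sqrt_pos.2 (by linarith [hcpos i])
  have hs2 : ∀ i, 2 * s i ^ 2 = c i := by
    intro i
    simp only [hs]
    rw [Real.sq_sqrt (by linarith [hcpos i])]
    ring
  -- later scales are much larger
  have hchain : ∀ i j, i < j → (Ms i : ℝ) ≤ Real.log (Ms j) := by
    intro i j hij
    induction j with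
    | zero => omega
    | succ j ih =>
        have hstep : (Ms j : ℝ) ≤ Real.log (Ms (j + 1)) := by
          have hpos : (0 : ℝ) < Ms (j + 1) := (Real.exp_pos _).trans_le (hexp j)
          rw [Real.le_log_iff_exp_le hpos]
          exact hexp j
        rcases Nat.lt_succ_iff_lt_or_eq.1 hij with h | h
        · have h1 := ih h
          have h2 : Real.log (Ms j) ≤ Ms j := by
            have := hlog2 j
            have hpos : (0 : ℝ) ≤ Ms j := Nat.cast_nonneg _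
            exact (Real.log_le_self hpos)
          linarith
        · rw [h]; exact hstep
  have hmain := Ms_main hα hαβ hβ hr (H := fun i => Hs (Ms i) θ (Gs i)) (s := s)
    (fun i _ => Low_sh (hC i) hθ0 hθ1 (by linarith [hlog2 i])) (fun i _ => hspos i) (fun i _ => (hs2 i).symm)
    (fun i _ j _ hij => by
      rcases lt_or_gt_of_ne hij with h | h
      · exact Low_orth (hC i) (hC j) hθ0 (hchain i j h)
      · have h1 := Low_orth (hC j) (hC i) hθ0 (hchain j i h)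
        have e : (fun x => Hs (Ms i) θ (Gs i) x * Hs (Ms j) θ (Gs j) x / x) =
            fun x => Hs (Ms j) θ (Gs j) x * Hs (Ms i) θ (Gs i) x / x := funext fun x => by ring
        rw [e]
        exact h1)
  refine Rare_mono hmain le_rfl le_rfl le_rfl le_rfl le_rfl (Eventually.of_forall fun T t _ ht => ?_)
  intro i hi
  have h1 := ht i hi
  rw [Low_XX] at h1
  show -(1 / 10) ≤ (ev t (bb (Hs (Ms i) θ (Gs i)) T)).re / s i
  rw [le_div_iff₀ (hspos i)]
  have h2 : 10 * lam (Ms i) ≤ s i := by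
    apply Real.le_sqrt_of_sq_le
    have h3 := (hlarge i).2.1
    have h4 := hcl i
    nlinarith
  linarith

end Pool.Agent.H67.AH
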