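import Mathlib
import Pool.Agent.H68.AH.Defs

/-!
# MP_103a5c_AH: (PS), numerical inequalities for large `M`
-/

open MeasureTheory Set Filter Topology
open scoped Real

namespace Pool.Agent.H67.AH

open Pool.Agent Pool.Agent.H68.AH

theorem Pn_log : Tendsto (fun M : ℕ => Real.log (M : ℝ)) atTop atTop :=
  Real.tendsto_log_atTop.comp tendsto_natCast_atTop_atTop

theorem Pn_lam : Tendsto lam atTop atTop := (tendsto_rpow_atTop (by norm_num)).comp Pn_log

/-- `x ^ n exp (-c x) → 0` -/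
theorem Pn_pow_exp (n : ℕ) {c : ℝ} (hc : 0 < c) : Tendsto (fun x : ℝ => x ^ n * Real.exp (-(c * x))) atTop (𝓝 0) := by
  have h1 := (Real.tendsto_pow_mul_exp_neg_atTop_nhds_zero n).comp (tendsto_id.const_mul_atTop hc)
  have h2 := h1.const_mul ((c⁻¹) ^ n)
  rw [mul_zero] at h2
  refine h2.congr fun x => ?_
  show c⁻¹ ^ n * ((c * x) ^ n * Real.exp (-(c * x))) = _
  rw [mul_pow, ← mul_assoc, ← mul_assoc, ← mul_pow, inv_mul_cancel₀ hc.ne', one_pow, one_mul]

/-- The numerical inequality: with `l = log M`, `x = lam M`. -/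
theorem Pn_main (K₃ : ℝ) (hK₃ : 0 < K₃) : ∃ M₀ : ℕ, ∀ M : ℕ, M₀ ≤ M → 2 ≤ Real.log M ∧
    K₃ * Real.log M * Real.exp (lam M / 2) + 1 < Real.exp (lam M) / 2 ∧
    Real.exp (lam M / 5) ≤ Real.exp (-(Real.log M ^ (2 / 5 : ℝ))) * Real.exp (lam M / 2) -
      2 * (KK M) * (Real.log M ^ 4) * Real.exp (Real.log M ^ (2 / 5 : ℝ)) := by
  have e1 : ∀ᶠ M : ℕ in atTop, 2 ≤ Real.log M := Pn_log.eventually (eventually_ge_atTop 2)
  -- `log M ≤ lam ^ 3`
  have e2 : ∀ᶠ M : ℕ in atTop, Real.log M ≤ lam M ^ 3 := by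
    filter_upwards [e1] with M h1
    have h2 : lam M ^ 3 = Real.log M ^ (27 / 20 : ℝ) := by
      unfold lam
      rw [← Real.rpow_natCast, ← Real.rpow_mul (by linarith)]
      norm_num
    rw [h2]
    calc Real.log M = Real.log M ^ (1 : ℝ) := (Real.rpow_one _).symm
      _ ≤ Real.log M ^ (27 / 20 : ℝ) := Real.rpow_le_rpow_of_exponent_le (by linarith) (by norm_num)
  -- `log M ^ (2/5) ≤ lam / 40`
  have e3 : ∀ᶠ M : ℕ in atTop, Real.log M ^ (2 / 5 : ℝ) ≤ lam M / 40 := by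
    have h1 : Tendsto (fun M : ℕ => Real.log (M : ℝ) ^ (1 / 20 : ℝ)) atTop atTop :=
      (tendsto_rpow_atTop (by norm_num)).comp Pn_log
    filter_upwards [e1, h1.eventually (eventually_ge_atTop 40)] with M h2 h3
    have h4 : lam M = Real.log M ^ (2 / 5 : ℝ) * Real.log M ^ (1 / 20 : ℝ) := by
      unfold lam
      rw [← Real.rpow_add (by linarith)]
      norm_num
    have h5 : 0 ≤ Real.log M ^ (2 / 5 : ℝ) := Real.rpow_nonneg (by linarith) _
    rw [h4]
    nlinarith
  have e4 : ∀ᶠ M : ℕ in atTop, K₃ * (lam M ^ 3 * Real.exp (-(1 / 2 * lam M))) < 1 / 4 := by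
    have h := (((Pn_pow_exp 3 (by norm_num : (0 : ℝ) < 1 / 2)).const_mul K₃).comp Pn_lam)
    rw [mul_zero] at h
    exact h.eventually (gt_mem_nhds (by norm_num))
  have e5 : ∀ᶠ M : ℕ in atTop, lam M ^ 0 * Real.exp (-(1 * lam M)) < 1 / 4 := by
    have h := ((Pn_pow_exp 0 (by norm_num : (0 : ℝ) < 1)).comp Pn_lam)
    exact h.eventually (gt_mem_nhds (by norm_num))
  have e6 : ∀ᶠ M : ℕ in atTop, lam M ^ 0 * Real.exp (-(1 / 20 * lam M)) < 1 / 2 := by
    have h := ((Pn_pow_exp 0 (by norm_num : (0 : ℝ) < 1 / 20)).comp Pn_lam)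
    exact h.eventually (gt_mem_nhds (by norm_num))
  have e7 : ∀ᶠ M : ℕ in atTop, 4 * (lam M ^ 27 * Real.exp (-(1 / 8 * lam M))) < 1 / 2 := by
    have h := (((Pn_pow_exp 27 (by norm_num : (0 : ℝ) < 1 / 8)).const_mul 4).comp Pn_lam)
    rw [mul_zero] at h
    exact h.eventually (gt_mem_nhds (by norm_num))
  have e8 : ∀ᶠ M : ℕ in atTop, 0 < lam M := Pn_lam.eventually (eventually_gt_atTop 0)
  obtain ⟨M₀, hM₀⟩ := Filter.eventually_atTop.1 (e1.and (e2.and (e3.and (e4.and (e5.and (e6.and (e7.and e8)))))))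
  refine ⟨M₀, fun M hM => ?_⟩
  obtain ⟨h1, h2, h3, h4, h5, h6, h7, h8⟩ := hM₀ M hM
  set x := lam M with hx
  set l := Real.log M with hl
  refine ⟨h1, ?_, ?_⟩
  · -- divide by `exp x`
    have hx2 : Real.exp x = Real.exp (x / 2) * Real.exp (x / 2) := by rw [← Real.exp_add]; congr 1; ring
    have hE : 0 < Real.exp (x / 2) := Real.exp_pos _
    have e : Real.exp (-(1 / 2 * x)) * Real.exp (x / 2) = 1 := by
      have e0 : -(1 / 2 * x) + x / 2 = 0 := by ring
      rw [← Real.exp_add, e0, Real.exp_zero]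
    have e' : Real.exp (-(1 * x)) * Real.exp x = 1 := by
      rw [← Real.exp_add]; norm_num
    have a1 : K₃ * l * Real.exp (x / 2) ≤ K₃ * x ^ 3 * Real.exp (x / 2) :=
      mul_le_mul_of_nonneg_right (mul_le_mul_of_nonneg_left h2 hK₃.le) hE.le
    have a2 : K₃ * x ^ 3 * Real.exp (x / 2) = K₃ * (x ^ 3 * Real.exp (-(1 / 2 * x))) * Real.exp x := by
      rw [hx2]
      calc K₃ * x ^ 3 * Real.exp (x / 2) = K₃ * x ^ 3 * 1 * Real.exp (x / 2) := by ring
        _ = K₃ * x ^ 3 * (Real.exp (-(1 / 2 * x)) * Real.exp (x / 2)) * Real.exp (x / 2) := by rw [e]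
        _ = _ := by ring
    have a3 : K₃ * (x ^ 3 * Real.exp (-(1 / 2 * x))) * Real.exp x < 1 / 4 * Real.exp x :=
      mul_lt_mul_of_pos_right h4 (Real.exp_pos _)
    have a4 : (1 : ℝ) < 1 / 4 * Real.exp x := by
      rw [pow_zero, one_mul] at h5
      calc (1 : ℝ) = Real.exp (-(1 * x)) * Real.exp x := e'.symm
        _ < 1 / 4 * Real.exp x := mul_lt_mul_of_pos_right h5 (Real.exp_pos _)
    linarith
  · set B := l ^ (2 / 5 : ℝ) with hB
    have hl0 : 0 ≤ l := by linarith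
    have hK : (KK M : ℝ) ≤ 2 * l ^ 5 := by
      have hc : (KK M : ℝ) < l ^ 5 + 1 := Nat.ceil_lt_add_one (by positivity)
      have h9 : (1 : ℝ) ≤ l ^ 5 := one_le_pow₀ (by linarith)
      linarith
    have hl9 : l ^ 9 ≤ x ^ 27 := by
      calc l ^ 9 ≤ (x ^ 3) ^ 9 := pow_le_pow_left₀ hl0 h2 9
        _ = x ^ 27 := by rw [← pow_mul]
    have b1 : 2 * (KK M : ℝ) * l ^ 4 * Real.exp B ≤ 4 * x ^ 27 * Real.exp (x / 40) := by
      have b2 : 2 * (KK M : ℝ) * l ^ 4 ≤ 4 * x ^ 27 := by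
        calc 2 * (KK M : ℝ) * l ^ 4 ≤ 2 * (2 * l ^ 5) * l ^ 4 := by
              apply mul_le_mul_of_nonneg_right _ (by positivity)
              linarith
          _ = 4 * l ^ 9 := by ring
          _ ≤ 4 * x ^ 27 := by linarith
      exact mul_le_mul b2 (Real.exp_le_exp.2 h3) (Real.exp_pos _).le (by positivity)
    have b3 : Real.exp (x / 4) ≤ Real.exp (-B) * Real.exp (x / 2) := by
      rw [← Real.exp_add]
      apply Real.exp_le_exp.2
      linarith
    have b4 : Real.exp (x / 5) < 1 / 2 * Real.exp (x / 4) := by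
      rw [pow_zero, one_mul] at h6
      calc Real.exp (x / 5) = Real.exp (-(1 / 20 * x)) * Real.exp (x / 4) := by rw [← Real.exp_add]; congr 1; ring
        _ < 1 / 2 * Real.exp (x / 4) := mul_lt_mul_of_pos_right h6 (Real.exp_pos _)
    have b5 : 4 * x ^ 27 * Real.exp (x / 40) ≤ 1 / 2 * Real.exp (x / 4) := by
      have b6 : Real.exp (x / 40) ≤ Real.exp (-(1 / 8 * x)) * Real.exp (x / 4) := by
        rw [← Real.exp_add]
        apply Real.exp_le_exp.2
        linarith
      calc 4 * x ^ 27 * Real.exp (x / 40) ≤ 4 * x ^ 27 * (Real.exp (-(1 / 8 * x)) * Real.exp (x / 4)) :=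
            mul_le_mul_of_nonneg_left b6 (by positivity)
        _ = 4 * (x ^ 27 * Real.exp (-(1 / 8 * x))) * Real.exp (x / 4) := by ring
        _ ≤ 1 / 2 * Real.exp (x / 4) := mul_le_mul_of_nonneg_right h7.le (Real.exp_pos _).le
    linarith

/-- the total probability tends to zero -/
theorem Pn_prob (K₀ K₁ K₂ K₃ : ℝ) : Tendsto (fun M : ℕ =>
    (2 * (KK M : ℝ) + 1) * (K₀ * Real.log (M + 1) / (Real.log M ^ 4) ^ 2) +
    (2 * (KK M : ℝ) + 1) * (K₁ * (1 + Real.log (1 + KK M)) ^ 8 / (Real.log M ^ (2 / 5 : ℝ)) ^ 16) +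
    K₂ / Real.log M + K₃ / M) atTop (𝓝 0) := by
  have e1 : ∀ᶠ M : ℕ in atTop, 2 ≤ Real.log M := Pn_log.eventually (eventually_ge_atTop 2)
  have hK : ∀ᶠ M : ℕ in atTop, (2 * (KK M : ℝ) + 1) ≤ 5 * Real.log M ^ 5 := by
    filter_upwards [e1] with M h1
    have hc : (KK M : ℝ) < Real.log M ^ 5 + 1 := Nat.ceil_lt_add_one (by positivity)
    have h9 : (1 : ℝ) ≤ Real.log M ^ 5 := one_le_pow₀ (by linarith)
    linarith
  -- first term
  have t1 : Tendsto (fun M : ℕ => (2 * (KK M : ℝ) + 1) * (K₀ * Real.log (M + 1) / (Real.log M ^ 4) ^ 2)) atTop (𝓝 0) := by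
    have hb : Tendsto (fun M : ℕ => 10 * |K₀| * (Real.log M)⁻¹) atTop (𝓝 0) := by
      have := (tendsto_inv_atTop_zero.comp Pn_log).const_mul (10 * |K₀|)
      rwa [mul_zero] at this
    refine squeeze_zero_norm' ?_ hb
    filter_upwards [e1, hK, eventually_ge_atTop 1] with M h1 h2 h3
    have hl : 0 < Real.log (M : ℝ) := by linarith
    have hM1 : (1 : ℝ) ≤ M := by exact_mod_cast h3
    have h4 : Real.log ((M : ℝ) + 1) ≤ 2 * Real.log M := by
      have h5 : (M : ℝ) + 1 ≤ M ^ 2 := by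
        have hM2 : (2 : ℝ) ≤ M := by
          by_contra hlt
          have : M = 1 := by
            have : (M : ℝ) < 2 := not_le.1 hlt
            have : M < 2 := by exact_mod_cast this
            omega
          rw [this] at h1
          simp at h1
          linarith
        nlinarith
      calc Real.log ((M : ℝ) + 1) ≤ Real.log ((M : ℝ) ^ 2) := Real.log_le_log (by positivity) h5
        _ = 2 * Real.log M := by rw [Real.log_pow]; push_cast; ring
    have h5 : 0 ≤ Real.log ((M : ℝ) + 1) := Real.log_nonneg (by linarith)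
    have h6 : 0 ≤ 2 * (KK M : ℝ) + 1 := by positivity
    rw [Real.norm_eq_abs, abs_mul, abs_of_nonneg h6, abs_div, abs_mul, abs_of_nonneg h5,
      abs_of_pos (by positivity : 0 < (Real.log (M : ℝ) ^ 4) ^ 2)]
    calc (2 * (KK M : ℝ) + 1) * (|K₀| * Real.log (M + 1) / (Real.log M ^ 4) ^ 2)
        ≤ (5 * Real.log M ^ 5) * (|K₀| * (2 * Real.log M) / (Real.log M ^ 4) ^ 2) := by
          apply mul_le_mul h2 _ (by positivity) (by positivity)
          apply div_le_div_of_nonneg_right _ (by positivity)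
          exact mul_le_mul_of_nonneg_left h4 (abs_nonneg _)
      _ = 10 * |K₀| * (Real.log M ^ 2)⁻¹ := by
          field_simp
          ring
      _ ≤ 10 * |K₀| * (Real.log M)⁻¹ := by
          apply mul_le_mul_of_nonneg_left _ (by positivity)
          apply inv_anti₀ hl
          nlinarith
  -- second term
  have t2 : Tendsto (fun M : ℕ => (2 * (KK M : ℝ) + 1) * (K₁ * (1 + Real.log (1 + KK M)) ^ 8 /
      (Real.log M ^ (2 / 5 : ℝ)) ^ 16)) atTop (𝓝 0) := by
    have hb : Tendsto (fun M : ℕ => 5 * |K₁| * (20 ^ 8 * (Real.log (Real.log M) ^ 8 / Real.log M ))) atTop (𝓝 0) := by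
      have h1 : Tendsto (fun x : ℝ => Real.log x ^ 8 / x) atTop (𝓝 0) := by
        have := Real.tendsto_pow_log_div_mul_add_atTop 1 0 8 one_ne_zero
        simpa using this
      have := ((h1.comp Pn_log).const_mul (20 ^ 8)).const_mul (5 * |K₁|)
      rwa [mul_zero, mul_zero] at this
    refine squeeze_zero_norm' ?_ hb
    have e3 : ∀ᶠ M : ℕ in atTop, 3 ≤ Real.log M := Pn_log.eventually (eventually_ge_atTop 3)
    filter_upwards [e1, e3, hK] with M h1 h3 h2
    have hl : 0 < Real.log (M : ℝ) := by linarith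
    have hll : 1 ≤ Real.log (Real.log (M : ℝ)) := by
      rw [Real.le_log_iff_exp_le hl]
      exact Real.exp_one_lt_d9.le.trans (by norm_num; linarith)
    have h6 : 0 ≤ 2 * (KK M : ℝ) + 1 := by positivity
    have h7 : (Real.log M ^ (2 / 5 : ℝ)) ^ 16 = Real.log M ^ (32 / 5 : ℝ) := by
      rw [← Real.rpow_natCast, ← Real.rpow_mul hl.le]
      norm_num
    have h8 : Real.log M ^ 6 ≤ (Real.log M ^ (2 / 5 : ℝ)) ^ 16 := by
      rw [h7, ← Real.rpow_natCast]
      exact Real.rpow_le_rpow_of_exponent_le (by linarith) (by norm_num)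
    have h9 : 0 < (Real.log M ^ (2 / 5 : ℝ)) ^ 16 := (by positivity : 0 < Real.log (M : ℝ) ^ 6).trans_le h8
    have h10 : 0 ≤ 1 + Real.log (1 + (KK M : ℝ)) := by
      have : 0 ≤ Real.log (1 + (KK M : ℝ)) := Real.log_nonneg (by linarith [(Nat.cast_nonneg (KK M) : (0 : ℝ) ≤ KK M)])
      linarith
    have h11 : 1 + Real.log (1 + (KK M : ℝ)) ≤ 20 * Real.log (Real.log M) := by
      have h12 : 1 + (KK M : ℝ) ≤ Real.log M ^ 8 := by
        have hc : (KK M : ℝ) < Real.log M ^ 5 + 1 := Nat.ceil_lt_add_one (by positivity)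
        have h13 : (1 : ℝ) ≤ Real.log M ^ 5 := one_le_pow₀ (by linarith)
        calc 1 + (KK M : ℝ) ≤ 3 * Real.log M ^ 5 := by linarith
          _ ≤ Real.log M ^ 3 * Real.log M ^ 5 := by
              apply mul_le_mul_of_nonneg_right _ (by positivity)
              nlinarith [sq_nonneg (Real.log (M : ℝ))]
          _ = Real.log M ^ 8 := by ring
      have h13 : Real.log (1 + (KK M : ℝ)) ≤ 8 * Real.log (Real.log M) := by
        calc Real.log (1 + (KK M : ℝ)) ≤ Real.log (Real.log M ^ 8) := Real.log_le_log (by positivity) h12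
          _ = 8 * Real.log (Real.log M) := by rw [Real.log_pow]; push_cast; ring
      linarith
    rw [Real.norm_eq_abs, abs_mul, abs_of_nonneg h6, abs_div, abs_mul, abs_of_nonneg (pow_nonneg h10 8), abs_of_pos h9]
    calc (2 * (KK M : ℝ) + 1) * (|K₁| * (1 + Real.log (1 + (KK M : ℝ))) ^ 8 / (Real.log M ^ (2 / 5 : ℝ)) ^ 16)
        ≤ (5 * Real.log M ^ 5) * (|K₁| * (20 * Real.log (Real.log M)) ^ 8 / Real.log M ^ 6) := by
          apply mul_le_mul h2 _ (by positivity) (by positivity)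
          apply div_le_div₀ (by positivity) _ (by positivity) h8
          exact mul_le_mul_of_nonneg_left (pow_le_pow_left₀ h10 h11 8) (abs_nonneg _)
      _ = 5 * |K₁| * (20 ^ 8 * (Real.log (Real.log M) ^ 8 / Real.log M)) := by
          field_simp
  have t3 : Tendsto (fun M : ℕ => K₂ / Real.log M) atTop (𝓝 0) := tendsto_const_nhds.div_atTop Pn_log
  have t4 : Tendsto (fun M : ℕ => K₃ / (M : ℝ)) atTop (𝓝 0) := tendsto_const_nhds.div_atTop tendsto_natCast_atTop_atTop
  have := ((t1.add t2).add t3).add t4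
  simpa using this

end Pool.Agent.H67.AH
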