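import Mathlib

/-!
# MP_103a5c_AH: propagation of a lower bound along a class `t + b ℤ`
-/

open Finset

namespace Pool.Agent.H67.AH

theorem Prop_fwd_id (v c : ℕ → ℂ) (n : ℕ) :
    c 0 = (∏ i ∈ range n, v i) * c n - ∑ j ∈ range n, (∏ i ∈ range j, v i) * (v j * c (j + 1) - c j) := by
  induction n with
  | zero => simp
  | succ n ih =>
      rw [sum_range_succ, prod_range_succ, ih]
      ring

/-- Forward propagation. -/
theorem Prop_fwd {v c : ℕ → ℂ} {n : ℕ} {e B : ℝ} (he : 0 ≤ e)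
    (h1 : ∀ j < n, ‖v j * c (j + 1) - c j‖ ≤ (1 + ‖v j‖) * e)
    (h2 : ∀ j ≤ n, Real.exp (-B) ≤ ‖∏ i ∈ range j, v i‖) (h3 : ∀ j ≤ n, ‖∏ i ∈ range j, v i‖ ≤ Real.exp B) :
    Real.exp (-B) * ‖c n‖ - 2 * n * e * Real.exp B ≤ ‖c 0‖ := by
  have hid := Prop_fwd_id v c n
  have hsum : ‖∑ j ∈ range n, (∏ i ∈ range j, v i) * (v j * c (j + 1) - c j)‖ ≤ 2 * n * e * Real.exp B := by
    refine (norm_sum_le _ _).trans ?_
    calc ∑ j ∈ range n, ‖(∏ i ∈ range j, v i) * (v j * c (j + 1) - c j)‖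
        ≤ ∑ j ∈ range n, 2 * e * Real.exp B := by
          refine sum_le_sum fun j hj => ?_
          have hj' : j < n := mem_range.1 hj
          rw [norm_mul]
          have hp : ‖∏ i ∈ range (j + 1), v i‖ = ‖∏ i ∈ range j, v i‖ * ‖v j‖ := by
            rw [prod_range_succ, norm_mul]
          have hA := h3 j hj'.le
          have hB := h3 (j + 1) hj'
          rw [hp] at hB
          calc ‖∏ i ∈ range j, v i‖ * ‖v j * c (j + 1) - c j‖
              ≤ ‖∏ i ∈ range j, v i‖ * ((1 + ‖v j‖) * e) :=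
                mul_le_mul_of_nonneg_left (h1 j hj') (norm_nonneg _)
            _ = (‖∏ i ∈ range j, v i‖ + ‖∏ i ∈ range j, v i‖ * ‖v j‖) * e := by ring
            _ ≤ (Real.exp B + Real.exp B) * e := mul_le_mul_of_nonneg_right (add_le_add hA hB) he
            _ = 2 * e * Real.exp B := by ring
      _ = 2 * n * e * Real.exp B := by
          rw [sum_const, card_range, nsmul_eq_mul]; ring
  have hmain : ‖(∏ i ∈ range n, v i) * c n‖ - ‖∑ j ∈ range n, (∏ i ∈ range j, v i) * (v j * c (j + 1) - c j)‖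
      ≤ ‖c 0‖ := by
    rw [hid]
    exact norm_sub_norm_le _ _
  have hlow : Real.exp (-B) * ‖c n‖ ≤ ‖(∏ i ∈ range n, v i) * c n‖ := by
    rw [norm_mul]
    exact mul_le_mul_of_nonneg_right (h2 n le_rfl) (norm_nonneg _)
  linarith

theorem Prop_bwd_id (v c : ℕ → ℂ) (n : ℕ) (hv : ∀ j ≤ n, (∏ i ∈ range j, v i) ≠ 0) :
    c 0 = (∏ i ∈ range n, v i)⁻¹ * c n + ∑ j ∈ range n, (∏ i ∈ range (j + 1), v i)⁻¹ * (v j * c j - c (j + 1)) := by
  induction n with
  | zero => simp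
  | succ n ih =>
      have ih' := ih fun j hj => hv j (hj.trans n.le_succ)
      have h1 : (∏ i ∈ range n, v i) ≠ 0 := hv n n.le_succ
      have h2 : (∏ i ∈ range (n + 1), v i) ≠ 0 := hv (n + 1) le_rfl
      have h3 : v n ≠ 0 := by
        intro h0
        apply h2
        rw [prod_range_succ, h0, mul_zero]
      rw [sum_range_succ]
      have h4 : (∏ i ∈ range (n + 1), v i)⁻¹ * c (n + 1) + (∏ i ∈ range (n + 1), v i)⁻¹ * (v n * c n - c (n + 1))
          = (∏ i ∈ range n, v i)⁻¹ * c n := by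
        rw [prod_range_succ]
        field_simp
        ring
      calc c 0 = (∏ i ∈ range n, v i)⁻¹ * c n
            + ∑ j ∈ range n, (∏ i ∈ range (j + 1), v i)⁻¹ * (v j * c j - c (j + 1)) := ih'
        _ = _ := by rw [← h4]; ring

/-- Backward propagation. -/
theorem Prop_bwd {v c : ℕ → ℂ} {n : ℕ} {e B : ℝ} (he : 0 ≤ e)
    (h1 : ∀ j < n, ‖v j * c j - c (j + 1)‖ ≤ (1 + ‖v j‖) * e)
    (h2 : ∀ j ≤ n, Real.exp (-B) ≤ ‖∏ i ∈ range j, v i‖) (h3 : ∀ j ≤ n, ‖∏ i ∈ range j, v i‖ ≤ Real.exp B) :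
    Real.exp (-B) * ‖c n‖ - 2 * n * e * Real.exp B ≤ ‖c 0‖ := by
  have hne : ∀ j ≤ n, (∏ i ∈ range j, v i) ≠ 0 := by
    intro j hj h0
    have := h2 j hj
    rw [h0, norm_zero] at this
    linarith [Real.exp_pos (-B)]
  have hid := Prop_bwd_id v c n hne
  have hinv : ∀ j ≤ n, ‖(∏ i ∈ range j, v i)⁻¹‖ ≤ Real.exp B := by
    intro j hj
    rw [norm_inv]
    have h := h2 j hj
    have hpos : 0 < ‖∏ i ∈ range j, v i‖ := norm_pos_iff.2 (hne j hj)
    rw [inv_le_comm₀ hpos (Real.exp_pos B), ← Real.exp_neg]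
    exact h
  have hsum : ‖∑ j ∈ range n, (∏ i ∈ range (j + 1), v i)⁻¹ * (v j * c j - c (j + 1))‖ ≤ 2 * n * e * Real.exp B := by
    refine (norm_sum_le _ _).trans ?_
    calc ∑ j ∈ range n, ‖(∏ i ∈ range (j + 1), v i)⁻¹ * (v j * c j - c (j + 1))‖
        ≤ ∑ j ∈ range n, 2 * e * Real.exp B := by
          refine sum_le_sum fun j hj => ?_
          have hj' : j < n := mem_range.1 hj
          rw [norm_mul]
          have hvj : v j ≠ 0 := by
            intro h0
            apply hne (j + 1) hj'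
            rw [prod_range_succ, h0, mul_zero]
          have hp : ‖(∏ i ∈ range (j + 1), v i)⁻¹‖ * ‖v j‖ = ‖(∏ i ∈ range j, v i)⁻¹‖ := by
            rw [← norm_mul, prod_range_succ, mul_inv, mul_assoc, inv_mul_cancel₀ hvj, mul_one]
          have hA := hinv (j + 1) hj'
          have hB := hinv j hj'.le
          rw [← hp] at hB
          calc ‖(∏ i ∈ range (j + 1), v i)⁻¹‖ * ‖v j * c j - c (j + 1)‖
              ≤ ‖(∏ i ∈ range (j + 1), v i)⁻¹‖ * ((1 + ‖v j‖) * e) :=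
                mul_le_mul_of_nonneg_left (h1 j hj') (norm_nonneg _)
            _ = (‖(∏ i ∈ range (j + 1), v i)⁻¹‖ + ‖(∏ i ∈ range (j + 1), v i)⁻¹‖ * ‖v j‖) * e := by ring
            _ ≤ (Real.exp B + Real.exp B) * e := mul_le_mul_of_nonneg_right (add_le_add hA hB) he
            _ = 2 * e * Real.exp B := by ring
      _ = 2 * n * e * Real.exp B := by
          rw [sum_const, card_range, nsmul_eq_mul]; ring
  have hmain : ‖(∏ i ∈ range n, v i)⁻¹ * c n‖ - ‖∑ j ∈ range n, (∏ i ∈ range (j + 1), v i)⁻¹ * (v j * c j - c (j + 1))‖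
      ≤ ‖c 0‖ := by
    rw [hid]
    have := norm_sub_norm_le ((∏ i ∈ range n, v i)⁻¹ * c n)
      (-∑ j ∈ range n, (∏ i ∈ range (j + 1), v i)⁻¹ * (v j * c j - c (j + 1)))
    rw [norm_neg, sub_neg_eq_add] at this
    exact this
  have hlow : Real.exp (-B) * ‖c n‖ ≤ ‖(∏ i ∈ range n, v i)⁻¹ * c n‖ := by
    rw [norm_mul]
    apply mul_le_mul_of_nonneg_right _ (norm_nonneg _)
    rw [norm_inv, Real.exp_neg]
    exact inv_anti₀ (norm_pos_iff.2 (hne n le_rfl)) (h3 n le_rfl)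
  linarith

end Pool.Agent.H67.AH
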