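import Mathlib
import Pool.Agent.H67.AH.Prop

/-!
# MP_103a5c_AH: (PS), the pointwise propagation along `t + 2kh`
-/

open Finset

namespace Pool.Agent.H67.AH

theorem PS_prod {R : ℝ → ℝ} {x : ℕ → ℝ} {v : ℕ → ℂ} (hv : ∀ i, ‖v i‖ = Real.exp (R (x (i + 1)) - R (x i))) (j : ℕ) :
    ‖∏ i ∈ range j, v i‖ = Real.exp (R (x j) - R (x 0)) := by
  induction j with
  | zero => simp
  | succ j ih =>
      rw [prod_range_succ, norm_mul, ih, hv, ← Real.exp_add]
      congr 1
      ring

theorem PS_point {C V : ℝ → ℂ} {R : ℝ → ℝ} {h t : ℝ} {K : ℕ} {e B : ℝ} (he : 0 ≤ e)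
    (hV : ∀ u, ‖V u‖ = Real.exp (R (u + h) - R (u - h)))
    (h1 : ∀ k : ℤ, |k| ≤ K → ‖V (t + (2 * k + 1) * h) * C (t + 2 * (k + 1) * h) - C (t + 2 * k * h)‖
      ≤ (1 + ‖V (t + (2 * k + 1) * h)‖) * e)
    (h2 : ∀ k : ℤ, |k| ≤ K → |R (t + 2 * k * h) - R t| ≤ B) (k : ℤ) (hk : |k| ≤ K) :
    Real.exp (-B) * ‖C (t + 2 * k * h)‖ - 2 * K * e * Real.exp B ≤ ‖C t‖ := by
  have hB : 0 ≤ Real.exp B := (Real.exp_pos B).le
  rcases le_total 0 k with h0 | h0
  · obtain ⟨n, rfl⟩ := Int.eq_ofNat_of_zero_le h0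
    have hn : n ≤ K := by
      rw [abs_of_nonneg h0] at hk
      exact_mod_cast hk
    have hvx : ∀ i : ℕ, ‖V (t + (2 * (i : ℝ) + 1) * h)‖ =
        Real.exp (R (t + 2 * ((i + 1 : ℕ) : ℝ) * h) - R (t + 2 * (i : ℝ) * h)) := by
      intro i
      rw [hV]
      congr 3
      · push_cast; ring
      · ring_nf
    have hprod := fun j => PS_prod (R := R) (x := fun i : ℕ => t + 2 * (i : ℝ) * h)
      (v := fun i : ℕ => V (t + (2 * (i : ℝ) + 1) * h)) hvx j
    have hb : ∀ j ≤ n, |R (t + 2 * (j : ℝ) * h) - R (t + 2 * ((0 : ℕ) : ℝ) * h)| ≤ B := by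
      intro j hj
      have := h2 (j : ℤ) (by rw [abs_of_nonneg (by positivity)]; exact_mod_cast hj.trans hn)
      push_cast at this ⊢
      simpa using this
    have hmain := Prop_fwd (v := fun i : ℕ => V (t + (2 * (i : ℝ) + 1) * h)) (c := fun i : ℕ => C (t + 2 * (i : ℝ) * h))
      (n := n) (e := e) (B := B) he (by
        intro j hj
        have := h1 (j : ℤ) (by rw [abs_of_nonneg (by positivity)]; exact_mod_cast (hj.le.trans hn))
        push_cast at this ⊢
        exact this) (by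
        intro j hj
        rw [hprod]
        exact Real.exp_le_exp.2 (abs_le.1 (hb j hj)).1) (by
        intro j hj
        rw [hprod]
        exact Real.exp_le_exp.2 (abs_le.1 (hb j hj)).2)
    have hKn : 2 * (n : ℝ) * e * Real.exp B ≤ 2 * K * e * Real.exp B := by
      have : (n : ℝ) ≤ K := by exact_mod_cast hn
      have h3 : 0 ≤ e * Real.exp B := mul_nonneg he hB
      nlinarith
    simp only [Nat.cast_zero, mul_zero, zero_mul, add_zero] at hmain
    push_cast
    linarith
  · obtain ⟨n, hn'⟩ := Int.eq_ofNat_of_zero_le (neg_nonneg.2 h0)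
    have hkn : k = -(n : ℤ) := by rw [← hn', neg_neg]
    subst hkn
    have hn : n ≤ K := by
      rw [abs_neg, abs_of_nonneg (by positivity)] at hk
      exact_mod_cast hk
    have hvx : ∀ i : ℕ, ‖V (t - (2 * (i : ℝ) + 1) * h)‖ =
        Real.exp ((fun u => -R u) (t - 2 * ((i + 1 : ℕ) : ℝ) * h) - (fun u => -R u) (t - 2 * (i : ℝ) * h)) := by
      intro i
      rw [hV]
      have e1 : t - (2 * (i : ℝ) + 1) * h + h = t - 2 * (i : ℝ) * h := by ring
      have e2 : t - (2 * (i : ℝ) + 1) * h - h = t - 2 * ((i + 1 : ℕ) : ℝ) * h := by push_cast; ring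
      rw [e1, e2]
      congr 1
      ring
    have hprod := fun j => PS_prod (R := fun u => -R u) (x := fun i : ℕ => t - 2 * (i : ℝ) * h)
      (v := fun i : ℕ => V (t - (2 * (i : ℝ) + 1) * h)) hvx j
    have hb : ∀ j ≤ n, |-R (t - 2 * (j : ℝ) * h) - -R (t - 2 * ((0 : ℕ) : ℝ) * h)| ≤ B := by
      intro j hj
      have := h2 (-(j : ℤ)) (by rw [abs_neg, abs_of_nonneg (by positivity)]; exact_mod_cast hj.trans hn)
      push_cast at this ⊢
      have e1 : t + 2 * -(j : ℝ) * h = t - 2 * (j : ℝ) * h := by ring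
      rw [e1] at this
      have e2 : -R (t - 2 * (j : ℝ) * h) - -R (t - 2 * 0 * h) = -(R (t - 2 * (j : ℝ) * h) - R t) := by
        rw [mul_zero, zero_mul, sub_zero]; ring
      rw [e2, abs_neg]
      exact this
    have hmain := Prop_bwd (v := fun i : ℕ => V (t - (2 * (i : ℝ) + 1) * h)) (c := fun i : ℕ => C (t - 2 * (i : ℝ) * h))
      (n := n) (e := e) (B := B) he (by
        intro j hj
        have := h1 (-((j : ℤ) + 1)) (by
          rw [abs_neg, abs_of_nonneg (by positivity)]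
          exact_mod_cast (Nat.succ_le_of_lt hj).trans hn)
        push_cast at this ⊢
        have e1' : t + (2 * (-((j : ℝ) + 1)) + 1) * h = t - (2 * (j : ℝ) + 1) * h := by ring
        have e2' : t + 2 * (-((j : ℝ) + 1) + 1) * h = t - 2 * (j : ℝ) * h := by ring
        have e3' : t + 2 * (-((j : ℝ) + 1)) * h = t - 2 * ((j : ℝ) + 1) * h := by ring
        rw [e1', e2', e3'] at this
        exact this) (by
        intro j hj
        rw [hprod]
        exact Real.exp_le_exp.2 (abs_le.1 (hb j hj)).1) (by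
        intro j hj
        rw [hprod]
        exact Real.exp_le_exp.2 (abs_le.1 (hb j hj)).2)
    have hKn : 2 * (n : ℝ) * e * Real.exp B ≤ 2 * K * e * Real.exp B := by
      have : (n : ℝ) ≤ K := by exact_mod_cast hn
      have h3 : 0 ≤ e * Real.exp B := mul_nonneg he hB
      nlinarith
    simp only [Nat.cast_zero, mul_zero, zero_mul, sub_zero] at hmain
    have e4 : t + 2 * ((-(n : ℤ) : ℤ) : ℝ) * h = t - 2 * (n : ℝ) * h := by push_cast; ring
    rw [e4]
    linarith

end Pool.Agent.H67.AH
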