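import Mathlib
import Pool.Agent.H67.AH.PsPoint
import Pool.Agent.H67.AH.PsNum
import Pool.Agent.H67.AH.Rare

/-!
# MP_103a5c_AH: (PS) one scale: where the low band field is very negative, `|C|` is large
-/

open MeasureTheory Set Filter Topology
open scoped Real

namespace Pool.Agent.H67.AH

open Pool.Agent Pool.Agent.H67.HF Pool.Agent.H68.AH

theorem PS {χ₁ : ℝ → ℝ}
    (S1 : ∃ K₀ : ℝ, 0 < K₀ ∧
      ∀ (M : ℕ) (G : ℕ → ℝ → ℝ), Cell0 M G → ∃ η : ℝ, 0 < η ∧ η ≤ 1 / 4 ∧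
        ∀ θ δ : ℝ, 1 - η < θ → θ < 1 → 1 / 2 - η < δ → δ < 1 / 2 → ∃ D₀ : ℝ, 1 ≤ D₀ ∧ ∀ D, D₀ ≤ D →
          ∀ FF : Filter ℝ, Hyp FF → ∀ α β : ℝ, 0 < α → α < β → β < 1 → ∀ Λ : ℝ, 0 < Λ →
            Rare FF α β (K₀ * Real.log (M + 1) / Λ ^ 2) (fun T => {t | Λ * (1 + ‖VV χ₁ δ D T t‖) <
              ‖VV χ₁ δ D T t * CT M (cG θ G) T (t + π * δ / Real.log T) - CT M (cG θ G) T (t - π * δ / Real.log T)‖}))
    (norm_VV : ∀ δ D T t : ℝ, 1 < T → 1 ≤ D →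
      ‖VV χ₁ δ D T t‖ = Real.exp (Rr χ₁ D T (t + π * δ / Real.log T) - Rr χ₁ D T (t - π * δ / Real.log T)))
    (P4 : ∃ K₁ : ℝ, 0 < K₁ ∧
      ∀ D : ℝ, 1 ≤ D → ∀ FF : Filter ℝ, Hyp FF → ∀ α β : ℝ, 0 < α → α < β → β < 1 → ∀ s Λ : ℝ, 0 < Λ →
        Rare FF α β (K₁ * (1 + Real.log (1 + |s|)) ^ 8 / Λ ^ 16)
          (fun T => {t | Λ < |Rr χ₁ D T (t + 2 * π * s / Real.log T) - Rr χ₁ D T t|}))
    (P1 : ∃ (K₂ : ℝ) (M₀ : ℕ), 0 < K₂ ∧ ∀ (M : ℕ) (G : ℕ → ℝ → ℝ), M₀ ≤ M → Cell0 M G → ∀ θ : ℝ, 1 / 2 < θ → θ < 1 →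
      ∀ α β : ℝ, 0 < α → α < β → β < 1 →
        Rare atTop α β (K₂ / Real.log M) (fun T => {t | 0 ≤ -XX M (cG θ G) T t ∧
          ‖CT M (hG (yy M) (cG θ G)) T t‖ < Real.exp (-XX M (cG θ G) T t) / 2}))
    (Ksamp : ∃ (K₃ : ℝ) (M₀ : ℕ), 0 < K₃ ∧ ∀ (M : ℕ) (G : ℕ → ℝ → ℝ), M₀ ≤ M → Cell0 M G → ∀ θ δ : ℝ, 1 / 2 < θ →
      θ < 1 → 1 / 4 < δ → δ < 1 / 2 → ∀ α β : ℝ, 0 < α → α < β → β < 1 →
        Rare atTop α β (K₃ / M) (fun T => {t | ∃ A : ℝ,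
          (∀ k : ℤ, |k| ≤ KK M → ‖CT M (cG θ G) T (t + 2 * π * (k * δ) / Real.log T)‖ ≤ A) ∧
          K₃ * Real.log M * A + 1 < ‖CT M (hG (yy M) (cG θ G)) T t‖})) :
    ∃ (p : ℕ → ℝ) (M₀ : ℕ), Tendsto p atTop (𝓝 0) ∧
    ∀ (M : ℕ) (G : ℕ → ℝ → ℝ), M₀ ≤ M → Cell0 M G → ∃ η : ℝ, 0 < η ∧ η ≤ 1 / 4 ∧ ∀ θ : ℝ, 1 - η < θ → θ < 1 →
      ∀ FF : Filter ℝ, Hyp FF → ∀ α β : ℝ, 0 < α → α < β → β < 1 →
        Rare FF α β (p M) (fun T => {t | lam M ≤ -XX M (cG θ G) T t ∧ ‖CT M (cG θ G) T t‖ < Real.exp (lam M / 5)}) := by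
  obtain ⟨K₀, hK₀, S1⟩ := S1
  obtain ⟨K₁, hK₁, P4⟩ := P4
  obtain ⟨K₂, M₂, hK₂, P1⟩ := P1
  obtain ⟨K₃, M₃, hK₃, Ksamp⟩ := Ksamp
  obtain ⟨M₄, hM₄⟩ := Pn_main K₃ hK₃
  refine ⟨fun M : ℕ => (2 * (KK M : ℝ) + 1) * (K₀ * Real.log (M + 1) / (Real.log M ^ 4) ^ 2) +
    (2 * (KK M : ℝ) + 1) * (K₁ * (1 + Real.log (1 + KK M)) ^ 8 / (Real.log M ^ (2 / 5 : ℝ)) ^ 16) +
    K₂ / Real.log M + K₃ / M, max M₂ (max M₃ M₄), Pn_prob K₀ K₁ K₂ K₃, ?_⟩
  intro M G hM hC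
  have hM2 : M₂ ≤ M := (le_max_left _ _).trans hM
  have hM3 : M₃ ≤ M := (le_max_left _ _).trans ((le_max_right _ _).trans hM)
  have hM4 : M₄ ≤ M := (le_max_right _ _).trans ((le_max_right _ _).trans hM)
  obtain ⟨hl2, hnum1, hnum2⟩ := hM₄ M hM4
  obtain ⟨η, hη0, hη1, S1⟩ := S1 M G hC
  refine ⟨η, hη0, hη1, ?_⟩
  intro θ hθ hθ1 FF hF α β hα hαβ hβ
  obtain ⟨D, hD1, S1⟩ := S1 θ (1 / 2 - η / 2) hθ hθ1 (by linarith) (by linarith)
  set δ : ℝ := 1 / 2 - η / 2 with hδ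
  have hδ1 : 1 / 4 < δ := by linarith
  have hδ2 : δ < 1 / 2 := by linarith
  have hθ2 : 1 / 2 < θ := by linarith
  have S1 := fun Λ hΛ => S1 D le_rfl FF hF (α / 2) ((1 + β) / 2) (by linarith) (by linarith) (by linarith) Λ hΛ
  have P4 := fun s Λ hΛ => P4 D hD1 FF hF α β hα hαβ hβ s Λ hΛ
  have P1 := P1 M G hM2 hC θ hθ2 hθ1 α β hα hαβ hβ
  have Ksamp := Ksamp M G hM3 hC θ δ hθ2 hθ1 hδ1 hδ2 α β hα hαβ hβ
  have hl0 : 0 < Real.log (M : ℝ) := by linarith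
  have hB0 : 0 < Real.log (M : ℝ) ^ (2 / 5 : ℝ) := Real.rpow_pos_of_pos hl0 _
  have hcard : (Finset.Icc (-(KK M : ℤ)) (KK M : ℤ)).card = 2 * KK M + 1 := by
    rw [Int.card_Icc]
    omega
  -- the union bounds
  have R1 := Rare_biUnion (FF := FF) (α := α) (β := β) (Finset.Icc (-(KK M : ℤ)) (KK M : ℤ))
    (p := fun _ => K₀ * Real.log (M + 1) / (Real.log M ^ 4) ^ 2)
    (S := fun k T => {t | t + (π * (2 * k + 1) * δ) / Real.log T ∈ {t | Real.log M ^ 4 * (1 + ‖VV χ₁ δ D T t‖) <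
              ‖VV χ₁ δ D T t * CT M (cG θ G) T (t + π * δ / Real.log T) - CT M (cG θ G) T (t - π * δ / Real.log T)‖}})
    (fun k _ => Rare_shift (S1 (Real.log M ^ 4) (by positivity)) hF.le (by linarith) (by linarith) (π * (2 * k + 1) * δ))
  have R2 := Rare_biUnion (FF := FF) (α := α) (β := β) (Finset.Icc (-(KK M : ℤ)) (KK M : ℤ))
    (p := fun _ => K₁ * (1 + Real.log (1 + KK M)) ^ 8 / (Real.log M ^ (2 / 5 : ℝ)) ^ 16)
    (S := fun k T => {t | Real.log M ^ (2 / 5 : ℝ) < |Rr χ₁ D T (t + 2 * π * (k * δ) / Real.log T) - Rr χ₁ D T t|})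
    (fun k hk => by
      rw [Finset.mem_Icc] at hk
      refine Rare_mono (P4 (k * δ) _ hB0) le_rfl hF.le le_rfl le_rfl ?_ (Eventually.of_forall fun T t _ ht => ht)
      apply div_le_div_of_nonneg_right _ (by positivity)
      apply mul_le_mul_of_nonneg_left _ hK₁.le
      have hks : |(k : ℝ) * δ| ≤ KK M := by
        rw [abs_mul, abs_of_pos (by linarith : 0 < δ)]
        have : |(k : ℝ)| ≤ KK M := by
          rw [abs_le]
          constructor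
          · exact_mod_cast hk.1
          · exact_mod_cast hk.2
        nlinarith [abs_nonneg (k : ℝ)]
      have h1 : 0 ≤ Real.log (1 + |(k : ℝ) * δ|) := Real.log_nonneg (by linarith [abs_nonneg ((k : ℝ) * δ)])
      apply pow_le_pow_left₀ (by linarith)
      have h2 : Real.log (1 + |(k : ℝ) * δ|) ≤ Real.log (1 + KK M) :=
        Real.log_le_log (by linarith [abs_nonneg ((k : ℝ) * δ)]) (by linarith)
      linarith)
  rw [Finset.sum_const, hcard, nsmul_eq_mul] at R1 R2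
  have R3 := Rare_mono P1 hF.le hF.le le_rfl le_rfl le_rfl (Eventually.of_forall fun T t _ ht => ht)
  have R4 := Rare_mono Ksamp hF.le hF.le le_rfl le_rfl le_rfl (Eventually.of_forall fun T t _ ht => ht)
  have R := Rare_union (Rare_union (Rare_union R1 R2) R3) R4
  refine Rare_mono R le_rfl hF.le le_rfl le_rfl (le_of_eq (by push_cast; rfl)) ?_
  filter_upwards [hF.le (eventually_gt_atTop 1)] with T hT t _ ht
  by_contra hbad
  simp only [mem_union, not_or] at hbad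
  obtain ⟨⟨⟨b1, b2⟩, b3⟩, b4⟩ := hbad
  obtain ⟨hX, hCt⟩ := ht
  have hlT : 0 < Real.log T := Real.log_pos hT
  -- the large value
  have hlam0 : 0 ≤ lam M := by unfold lam; positivity
  have hlarge : Real.exp (lam M) / 2 ≤ ‖CT M (hG (yy M) (cG θ G)) T t‖ := by
    by_contra h
    apply b3
    refine ⟨hlam0.trans hX, (not_le.1 h).trans_le ?_⟩
    have := Real.exp_le_exp.2 hX
    linarith
  have hex : ∃ k : ℤ, |k| ≤ KK M ∧ Real.exp (lam M / 2) < ‖CT M (cG θ G) T (t + 2 * π * (k * δ) / Real.log T)‖ := by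
    by_contra h
    push Not at h
    apply b4
    exact ⟨Real.exp (lam M / 2), fun k hk => h k hk, hnum1.trans_le hlarge⟩
  obtain ⟨k, hk, hkl⟩ := hex
  have hp := PS_point (C := fun u => CT M (cG θ G) T u) (V := fun u => VV χ₁ δ D T u) (R := fun u => Rr χ₁ D T u)
    (h := π * δ / Real.log T) (t := t) (K := KK M) (e := Real.log M ^ 4) (B := Real.log M ^ (2 / 5 : ℝ)) (by positivity)
    (fun u => norm_VV δ D T u hT hD1) (by
      intro j hj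
      by_contra h
      apply b1
      refine ⟨j, Finset.mem_Icc.2 (abs_le.1 hj), ?_⟩
      show Real.log M ^ 4 * (1 + ‖VV χ₁ δ D T (t + (π * (2 * j + 1) * δ) / Real.log T)‖) <
              ‖VV χ₁ δ D T (t + (π * (2 * j + 1) * δ) / Real.log T) *
                CT M (cG θ G) T (t + (π * (2 * j + 1) * δ) / Real.log T + π * δ / Real.log T) -
                CT M (cG θ G) T (t + (π * (2 * j + 1) * δ) / Real.log T - π * δ / Real.log T)‖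
      have h' := not_le.1 h
      have e1 : t + (π * (2 * (j : ℝ) + 1) * δ) / Real.log T = t + (2 * (j : ℝ) + 1) * (π * δ / Real.log T) := by ring
      have e2 : t + (2 * (j : ℝ) + 1) * (π * δ / Real.log T) + π * δ / Real.log T =
        t + 2 * ((j : ℝ) + 1) * (π * δ / Real.log T) := by ring
      have e3 : t + (2 * (j : ℝ) + 1) * (π * δ / Real.log T) - π * δ / Real.log T =
        t + 2 * (j : ℝ) * (π * δ / Real.log T) := by ring
      rw [e1, e2, e3, mul_comm (Real.log (M : ℝ) ^ 4)]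
      exact h') (by
      intro j hj
      by_contra h
      apply b2
      refine ⟨j, Finset.mem_Icc.2 (abs_le.1 hj), ?_⟩
      show Real.log M ^ (2 / 5 : ℝ) < |Rr χ₁ D T (t + 2 * π * (j * δ) / Real.log T) - Rr χ₁ D T t|
      have e1 : t + 2 * π * ((j : ℝ) * δ) / Real.log T = t + 2 * (j : ℝ) * (π * δ / Real.log T) := by ring
      rw [e1]
      exact not_le.1 h) k hk
  have e1 : t + 2 * π * ((k : ℝ) * δ) / Real.log T = t + 2 * (k : ℝ) * (π * δ / Real.log T) := by ring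
  rw [e1] at hkl
  have h5 : Real.exp (-(Real.log M ^ (2 / 5 : ℝ))) * Real.exp (lam M / 2) ≤
      Real.exp (-(Real.log M ^ (2 / 5 : ℝ))) * ‖CT M (cG θ G) T (t + 2 * (k : ℝ) * (π * δ / Real.log T))‖ :=
    mul_le_mul_of_nonneg_left hkl.le (Real.exp_pos _).le
  linarith

end Pool.Agent.H67.AH
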