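import Mathlib

/-!
# MP_103a5c_AH: few bad nodes (Vandermonde) and pigeonhole over the nodes
-/

open MeasureTheory Set Filter Topology Polynomial
open scoped Real

namespace Pool.Agent.H67.AH

/-- Coefficients are bounded by the values at `D + 1` nodes. -/
theorem Xi_coeff (s : Finset ℝ) : ∃ L : ℝ, 0 < L ∧ ∀ p : ℝ[X], p.degree < s.card → ∀ e : ℝ, 0 ≤ e →
    (∀ x ∈ s, |p.eval x| ≤ e) → ∀ i, |p.coeff i| ≤ L * e := by
  classical
  refine ⟨1 + ∑ x ∈ s, ∑ i ∈ Finset.range (s.card + 1), |(Lagrange.basis s id x).coeff i|, by positivity, ?_⟩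
  intro p hp e he hx i
  have hint : p = Lagrange.interpolate s id (fun x => p.eval x) := by
    apply Lagrange.eq_interpolate_of_eval_eq (s := s) (v := id) (f := p) (r := fun x => p.eval x)
    · exact Function.injective_id.injOn
    · exact hp
    · intro x _
      rfl
  by_cases hi : i < s.card + 1
  · have hc : p.coeff i = ∑ x ∈ s, p.eval x * (Lagrange.basis s id x).coeff i := by
      conv_lhs => rw [hint]
      rw [Lagrange.interpolate_apply, Polynomial.finsetSum_coeff]
      refine Finset.sum_congr rfl fun x _ => ?_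
      rw [Polynomial.coeff_C_mul]
    rw [hc]
    calc |∑ x ∈ s, p.eval x * (Lagrange.basis s id x).coeff i|
        ≤ ∑ x ∈ s, |p.eval x * (Lagrange.basis s id x).coeff i| := Finset.abs_sum_le_sum_abs _ _
      _ ≤ ∑ x ∈ s, e * ∑ i ∈ Finset.range (s.card + 1), |(Lagrange.basis s id x).coeff i| := by
          refine Finset.sum_le_sum fun x hxs => ?_
          rw [abs_mul]
          refine mul_le_mul (hx x hxs) ?_ (abs_nonneg _) he
          exact Finset.single_le_sum (f := fun i => |(Lagrange.basis s id x).coeff i|) (fun _ _ => abs_nonneg _)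
            (Finset.mem_range.2 hi)
      _ ≤ (1 + ∑ x ∈ s, ∑ i ∈ Finset.range (s.card + 1), |(Lagrange.basis s id x).coeff i|) * e := by
          rw [← Finset.mul_sum]
          nlinarith
  · have : p.coeff i = 0 := by
      apply Polynomial.coeff_eq_zero_of_degree_lt
      refine lt_of_lt_of_le hp ?_
      exact_mod_cast (by omega : s.card ≤ i)
    rw [this, abs_zero]
    positivity

/-- A polynomial of degree at most `D` with one coefficient at least `H` is small at no more than `D` of the nodes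
`1, …, m`. -/
theorem Xi_few (D m : ℕ) : ∃ c : ℝ, 0 < c ∧ ∀ p : ℝ[X], p.natDegree ≤ D → ∀ H : ℝ, 0 < H → (∃ i, H ≤ |p.coeff i|) →
    ((Finset.Icc 1 m).filter fun ξ : ℕ => |p.eval (ξ : ℝ)| < c * H).card ≤ D := by
  classical
  choose L hL0 hL using Xi_coeff
  let N : Finset ℝ := (Finset.Icc 1 m).image fun ξ : ℕ => (ξ : ℝ)
  let Q : ℝ := 1 + ∑ s ∈ N.powerset, L s
  have hQ : 0 < Q := by
    have : 0 ≤ ∑ s ∈ N.powerset, L s := Finset.sum_nonneg fun s _ => (hL0 s).le
    simp only [Q]; linarith
  refine ⟨1 / (2 * Q), by positivity, ?_⟩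
  intro p hp H hH hi
  obtain ⟨i, hi⟩ := hi
  by_contra hcon
  push Not at hcon
  obtain ⟨S, hSsub, hScard⟩ := Finset.exists_subset_card_eq (Nat.succ_le_of_lt hcon)
  let s : Finset ℝ := S.image fun ξ : ℕ => (ξ : ℝ)
  have hscard : s.card = D + 1 := by
    rw [Finset.card_image_of_injective _ Nat.cast_injective]
    exact hScard
  have hsN : s ∈ N.powerset := by
    rw [Finset.mem_powerset]
    apply Finset.image_subset_image
    exact hSsub.trans (Finset.filter_subset _ _)
  have h1 := hL s p (by
    rw [hscard]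
    calc p.degree ≤ (p.natDegree : WithBot ℕ) := Polynomial.degree_le_natDegree
      _ < ((D + 1 : ℕ) : WithBot ℕ) := by exact_mod_cast Nat.lt_succ_of_le hp) (1 / (2 * Q) * H) (by positivity) (by
    intro x hx
    obtain ⟨ξ, hξ, rfl⟩ := Finset.mem_image.1 hx
    have := (Finset.mem_filter.1 (hSsub hξ)).2
    exact this.le) i
  have h2 : L s ≤ Q := by
    have := Finset.single_le_sum (f := L) (fun s _ => (hL0 s).le) hsN
    simp only [Q]; linarith
  have h3 : L s * (1 / (2 * Q) * H) ≤ H / 2 := by
    calc L s * (1 / (2 * Q) * H) ≤ Q * (1 / (2 * Q) * H) := by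
          apply mul_le_mul_of_nonneg_right h2; positivity
      _ = H / 2 := by field_simp
  linarith

/-- Pigeonhole: if (outside `E`) every `t` lies in at most `D` of the measurable sets `B ξ`, `1 ≤ ξ ≤ m`, then some `B ξ` is
small. -/
theorem Xi_pigeon {D m : ℕ} (hm : 0 < m) {B : ℕ → Set ℝ} (hB : ∀ ξ, MeasurableSet (B ξ)) {E : Set ℝ}
    {a b e : ℝ} (hab : a ≤ b) (hE : volume.real (E ∩ Icc a b) ≤ e)
    (h : ∀ t ∈ Icc a b, t ∉ E → ∀ S ⊆ Finset.Icc 1 m, (∀ ξ ∈ S, t ∈ B ξ) → S.card ≤ D) :
    ∃ ξ ∈ Finset.Icc 1 m, volume.real (B ξ ∩ Icc a b) ≤ D * (b - a) / m + e := by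
  classical
  by_contra hcon
  push Not at hcon
  have hfinI : volume (Icc a b) < ⊤ := by rw [Real.volume_Icc]; exact ENNReal.ofReal_lt_top
  have hfin : ∀ S : Set ℝ, volume (S ∩ Icc a b) < ⊤ := fun S => lt_of_le_of_lt (measure_mono inter_subset_right) hfinI
  obtain ⟨E', hEE', hE'm, hE'v⟩ := exists_measurable_superset volume (E ∩ Icc a b)
  have hE'real : volume.real (E' ∩ Icc a b) ≤ e := by
    have h1 : volume (E' ∩ Icc a b) ≤ volume (E ∩ Icc a b) := by
      rw [← hE'v]; exact measure_mono inter_subset_left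
    exact (ENNReal.toReal_mono (hfin E).ne h1).trans hE
  have hint : ∀ ξ, IntegrableOn ((B ξ \ E').indicator (fun _ => (1 : ℝ))) (Icc a b) := by
    intro ξ
    exact (integrable_const (1 : ℝ)).indicator ((hB ξ).diff hE'm)
  have hsum : ∫ t in Icc a b, ∑ ξ ∈ Finset.Icc 1 m, (B ξ \ E').indicator (fun _ => (1 : ℝ)) t ≤ D * (b - a) := by
    calc ∫ t in Icc a b, ∑ ξ ∈ Finset.Icc 1 m, (B ξ \ E').indicator (fun _ => (1 : ℝ)) t
        ≤ ∫ t in Icc a b, (D : ℝ) := by
          apply setIntegral_mono_on
          · exact integrable_finsetSum _ fun ξ _ => hint ξ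
          · exact integrable_const _
          · exact measurableSet_Icc
          · intro t ht
            by_cases htE : t ∈ E'
            · have : ∀ ξ ∈ Finset.Icc 1 m, (B ξ \ E').indicator (fun _ => (1 : ℝ)) t = 0 := by
                intro ξ _
                apply indicator_of_notMem
                intro hh; exact hh.2 htE
              rw [Finset.sum_congr rfl this, Finset.sum_const_zero]
              positivity
            · have htE2 : t ∉ E := fun hh => htE (hEE' ⟨hh, ht⟩)
              have h1 := h t ht htE2 ((Finset.Icc 1 m).filter fun ξ : ℕ => t ∈ B ξ) (Finset.filter_subset _ _)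
                (fun ξ hξ => (Finset.mem_filter.1 hξ).2)
              have h2 : ∑ ξ ∈ Finset.Icc 1 m, (B ξ \ E').indicator (fun _ => (1 : ℝ)) t
                  ≤ (((Finset.Icc 1 m).filter fun ξ : ℕ => t ∈ B ξ).card : ℝ) := by
                rw [Finset.card_filter]
                push_cast
                refine Finset.sum_le_sum fun ξ _ => ?_
                by_cases hb : t ∈ B ξ
                · have hmem : t ∈ B ξ \ E' := ⟨hb, htE⟩
                  rw [indicator_of_mem hmem, if_pos hb]
                · have hmem : t ∉ B ξ \ E' := fun hh => hb hh.1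
                  rw [indicator_of_notMem hmem, if_neg hb]
              exact h2.trans (by exact_mod_cast h1)
      _ = D * (b - a) := by
          rw [setIntegral_const, smul_eq_mul, Real.volume_real_Icc_of_le hab]
          ring
  have hsum2 : ∫ t in Icc a b, ∑ ξ ∈ Finset.Icc 1 m, (B ξ \ E').indicator (fun _ => (1 : ℝ)) t
      = ∑ ξ ∈ Finset.Icc 1 m, volume.real ((B ξ \ E') ∩ Icc a b) := by
    rw [integral_finsetSum _ fun ξ _ => hint ξ]
    refine Finset.sum_congr rfl fun ξ _ => ?_
    rw [setIntegral_indicator ((hB ξ).diff hE'm), setIntegral_const, smul_eq_mul, mul_one, inter_comm]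
  have hlow : ∀ ξ ∈ Finset.Icc 1 m, D * (b - a) / m < volume.real ((B ξ \ E') ∩ Icc a b) := by
    intro ξ hξ
    have h1 := hcon ξ hξ
    have h2 : volume.real (B ξ ∩ Icc a b) ≤ volume.real ((B ξ \ E') ∩ Icc a b) + volume.real (E' ∩ Icc a b) := by
      have hsub : B ξ ∩ Icc a b ⊆ ((B ξ \ E') ∩ Icc a b) ∪ (E' ∩ Icc a b) := by
        intro t ht
        by_cases htE : t ∈ E'
        · exact Or.inr ⟨htE, ht.2⟩
        · exact Or.inl ⟨⟨ht.1, htE⟩, ht.2⟩
      refine (measureReal_mono hsub ?_).trans (measureReal_union_le _ _)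
      exact (lt_of_le_of_lt (measure_mono (union_subset inter_subset_right inter_subset_right)) hfinI).ne
    linarith
  have hcard : (Finset.Icc 1 m).card = m := by simp
  have hlt : ∑ ξ ∈ Finset.Icc 1 m, (D * (b - a) / m : ℝ) < ∑ ξ ∈ Finset.Icc 1 m, volume.real ((B ξ \ E') ∩ Icc a b) := by
    apply Finset.sum_lt_sum_of_nonempty
    · exact ⟨1, Finset.mem_Icc.2 ⟨le_refl _, hm⟩⟩
    · exact hlow
  rw [Finset.sum_const, hcard, nsmul_eq_mul] at hlt
  rw [hsum2] at hsum
  have hm' : (0 : ℝ) < m := by exact_mod_cast hm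
  have : (m : ℝ) * (D * (b - a) / m) = D * (b - a) := by field_simp
  linarith

end Pool.Agent.H67.AH
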