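import Mathlib
import Pool.Agent.H68.AH.St
import Pool.Agent.H67.AH.Ps
import Pool.Agent.H67.AH.Ms

/-!
# MP_103a5c_AH: (PS) and (MS) in the form of `H68/AH/St`
-/

open MeasureTheory Set Filter Topology
open scoped Real

namespace Pool.Agent.H67.AH

open Pool.Agent Pool.Agent.H68.AH

theorem PSP_of {χ₁ : ℝ → ℝ} (h1 : S1P χ₁) (h2 : NVP χ₁) (h3 : P4P χ₁) (h4 : P1P) (h5 : KsP) : PSP := PS h1 h2 h3 h4 h5

theorem MSP_holds : MSP := MS

end Pool.Agent.H67.AH
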